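import Pool.Agent.Helper64.RN.Defs
import Pool.Agent.Helper64.IG.Goals

/-!
# Goals of the project RN (MP_d01c92_ag.RationalNormalCurves)

THEOREM. `k ⊆ K` fields, `K` infinite. `RNC k K` is Zariski closed over `k`, stable under `N(∞)(K)`,
not contained in any `BW K w`; every closed stable proper subset of it is contained in some `BW K w`;
hence (theorem `BranchWidth`) every descending chain of closed stable subsets of it stabilizes.

Every `S_XX` is a packet; its docstring has the complete proof. Goals listed as USES are arguments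
`(h : S_YY)` (in the order of the list; with universe `u` where there is one).
-/

open scoped BigOperators

universe u

namespace Pool.Agent.Helper64.RN

open Module Pool.Agent.Helper64.IG

/-- `u` with the values at the positions `i`, `j` changed to `a`, `b`. -/
def up {p : ℕ} {E : Type} (u : Fin p → E) (i j : Fin p) (a b : E) : Fin p → E :=
  Function.update (Function.update u i a) j b

/-- The cross-ratio equations. -/
def CR {K : Type u} [Field K] {p : ℕ} {E : Type} (ω : (Fin p → E) → K) : Prop :=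
  ∀ (i j : Fin p) (u u' : Fin p → E) (a b c d : E), i ≠ j →
    ω (up u i j a b) * ω (up u i j c d) * ω (up u' i j a c) * ω (up u' i j b d) =
      ω (up u i j a c) * ω (up u i j b d) * ω (up u' i j a b) * ω (up u' i j c d)

/-- All coordinates at injective tuples are nonzero. -/
def Unif {K : Type u} [Field K] {p : ℕ} {E : Type} (ω : (Fin p → E) → K) : Prop :=
  ∀ a : Fin p → E, Function.Injective a → ω a ≠ 0

/-- `ω` is `c` times the determinant form of the vectors `v e`. -/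
def Rep {K : Type u} [Field K] {p : ℕ} {E : Type} (ω : (Fin p → E) → K) (c : K)
    (v : E → Fin p → K) : Prop :=
  ∀ a : Fin p → E, ω a = c * Matrix.det (fun i j => v (a j) i)

/-- The rank of a set of the vectors `v e`. -/
noncomputable def R {K : Type u} [Field K] {p : ℕ} {E : Type} (v : E → Fin p → K)
    (X : Finset E) : ℕ :=
  finrank K (Submodule.span K (v '' (X : Set E)))

/-! ## Part 1: forms -/

/-- CRR (rational normal curves satisfy the cross-ratio equations).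
PROOF. `det (t_{a_j} z_{a_j}^i) = (∏ t (a j)) * ∏_{i<j} (z (a j) - z (a i))` (`Matrix.det_mul_row` or
`det_mul_column`, and `Matrix.det_vandermonde`). CLAIM: for fixed `i ≠ j` and `u` there are
`C : K` and `g : E → K` with `ω (up u i j a b) = C * g a * g b * (z b - z a)` for all `a b` (then both
sides of CR are `C^2 C'^2 (g g')(a)(g g')(b)(g g')(c)(g g')(d)` times
`(z b - z a)(z d - z c)(z c - z a)(z d - z b)`: `ring`). Proof of the claim: if `i = 0, j = 1`,
`p = q + 2`, `up u 0 1 a b = Fin.cons a (Fin.cons b s)` and the Vandermonde product is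
`(z b - z a) * ∏_l (z (s l) - z a) * ∏_l (z (s l) - z b) * V(s)` (`Fin.prod_univ_succ`,
`Matrix.det_vandermonde` and `Fin.prod_Ioi_succ`/`Fin.cons`), so `g a = t a * ∏_l (z (s l) - z a)`,
`C = c (∏ t (s l)) V(s)`. In general choose a permutation `π` of `Fin p` with `π 0 = i, π 1 = j`:
`ω (a ∘ π) = sign π * ω a` (`Matrix.det_permute'`), `up u i j a b ∘ π = up (u ∘ π) 0 1 a b`. -/
def S_CRR : Prop :=
  ∀ (K : Type u) [Field K] (n p : ℕ) (ω : Form K n p), IsRNC ω → CR ω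

/-- CRX. USES: CRR. PROOF. The equation of CR at given `i j u u' a b c d` is the vanishing of
the polynomial `X _ * X _ * X _ * X _ - X _ * X _ * X _ * X _` over `k`; it holds for all `IsRNC`
forms by CRR, so for `x` by the definition of `RNC` (`e = ⟨n, p, _⟩`). -/
def S_CRX : Prop :=
  ∀ (k K : Type u) [Field k] [Field K] [Algebra k K], ∀ x ∈ RNC k K, ∀ n p : ℕ, CR (x.x n p)

/-- RS (restriction, contraction, monomial maps).
PROOF. (a) same `c`, `t ∘ inc`, `z ∘ inc`. (b) with `e = inr (last p)`: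
`det` of the columns `e, inc (a 0), …` is (Vandermonde product, `Fin.prod_univ_succ`)
`t e * (∏ t (a j) (z (a j) - z e)) * ∏_{i<j} (z (a j) - z (a i))`: new `c = c * t e`,
`t' x = t (inc x) * (z (inc x) - z e)`, `z' = z ∘ inc`. (c) `t' = T * t ∘ σ`, `z' = z ∘ σ`
(`Matrix.det_mul_row`). -/
def S_RS : Prop :=
  (∀ (K : Type u) [Field K] (n p : ℕ) (ω : Form K (n + 1) p), IsRNC ω → IsRNC (xi ω)) ∧
  (∀ (K : Type u) [Field K] (n p : ℕ) (ω : Form K n (p + 1)), IsRNC ω → IsRNC (theta ω)) ∧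
  (∀ (K : Type u) [Field K] (n p : ℕ) (ω : Form K n p) (σ : Ix n p → Ix n p) (T : Ix n p → K),
    IsRNC ω → IsRNC (fun a : Fin p → Ix n p => (∏ j, T (a j)) * ω (σ ∘ a)))

/-- KK (the closures over `k` and over `K` agree).
PROOF. Let `b` be a basis of `K` over `k` (`Module.Free.chooseBasis` or `Basis.ofVectorSpace`).
`h = Σ_i b_i h_i`, finite sum, `h_i` over `k`, `coeff m (h_i) = b.repr (coeff m h) i`. Generic form:
`Φ a = X none * det (X (some (inl (a j))) * X (some (inr (a j))) ^ i)` in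
`MvPolynomial (Option (Ix n p ⊕ Ix n p)) k`. `h` composed with `Φ` (mapped to `K`) vanishes at all
points over the infinite field `K`, so it is the zero polynomial (`MvPolynomial.funext`). It equals
`Σ_i b_i (h_i ∘ Φ)`, `h_i ∘ Φ` (`= aeval Φ h_i`) over `k`; comparing coefficients, linear
independence of `b` gives `h_i ∘ Φ = 0` for all `i`. So `h_i` vanishes at all `IsRNC` forms, hence
at `x.x n p`, and `h` vanishes there. -/
def S_KK : Prop :=
  ∀ (k K : Type u) [Field k] [Field K] [Algebra k K] [Infinite K], ∀ x ∈ RNC k K, ∀ (n p : ℕ)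
    (h : MvPolynomial (Fin p → Ix n p) K),
    (∀ ω : Form K n p, IsRNC ω → MvPolynomial.eval ω h = 0) → MvPolynomial.eval (x.x n p) h = 0

/-- NS (stability). USES: KK, RS.
PROOF. `IsPull g x y`, `g : Mono K n p`. Say that `y` is good at `(m, q)` if `eval (y.x m q) h = 0`
for every `h` over `K` that vanishes at all `IsRNC` forms of the level. For `(m, q) ≥ (n, p)`:
`y.x m q a = (∏ c (a j)) * x.x m q (s ∘ a)`, so `eval (y.x m q) h = eval (x.x m q) h'` with
`h' = bind₁ (fun a => C (∏ c (a j)) * X (s ∘ a)) h`, and `h'` vanishes at `IsRNC` forms by RS (c);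
so KK applies. If `y` is good at `(m + 1, q)` or `(m, q + 1)` it is good at `(m, q)`:
`xi (y.x (m+1) q) = y.x m q`, `eval (xi ω) h = eval ω (rename _ h)`, RS (a); `theta` likewise, RS (b).
So `y` is good everywhere. For an equation `e` over `k` use `h = map (algebraMap k K) e.f`. -/
def S_NS : Prop :=
  ∀ (k K : Type u) [Field k] [Field K] [Algebra k K] [Infinite K], NStable Set.univ (RNC k K)

/-- CN (contraction).
PROOF. Extend `v (s 0), …, v (s (r-1))` to a basis of `K^q` (`q = p + r`) indexed by `Fin p ⊕ Fin r`,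
equal to `v (s i)` at `inr i`; let `L` be the linear automorphism of `K^q` that maps the basis
vector of index `b` to the standard vector `e_(eq⁻¹ b)`. So `L (v (s i)) = e_(eq⁻¹ (inr i))`. Put
`v' e i = L (v e) (eq⁻¹ (inl i))`, `c' = c / det L` (up to the sign of nothing: the same `eq` is used
for rows and columns). The matrix `(L v_{(Sum.elim a s)(eq j)})_i`, reindexed by `eq` on both sides,
is `fromBlocks (v' (a j) i) 0 * 1` (the columns `inr` are standard vectors), of determinant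
`det (v' (a j) i)` (`Matrix.det_fromBlocks_zero₁₂`), and it equals `det L` times the original one.
Rank: `W = span (v s)` is the kernel of `x ↦ (L x)(eq⁻¹ (inl ·))` and has dimension `r`; it is
contained in `span (v '' (X ∪ im s))`, whose image is `span (v' '' X)` (`v' (s i) = 0`): rank-nullity
(`Submodule.finrank_map_add_finrank_ker` or `finrank_map_add…`). -/
def S_CN : Prop :=
  ∀ (K : Type u) [Field K] (E : Type) [Fintype E] [DecidableEq E] (q p r : ℕ)
    (eq : Fin q ≃ Fin p ⊕ Fin r) (c : K) (v : E → Fin q → K) (s : Fin r → E), c ≠ 0 →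
    LinearIndependent K (fun i => v (s i)) →
    ∃ (c' : K) (v' : E → Fin p → K), c' ≠ 0 ∧
      (∀ a : Fin p → E, c * Matrix.det (fun i j : Fin q => v (Sum.elim a s (eq j)) i) =
        c' * Matrix.det (fun i j : Fin p => v' (a j) i)) ∧
      ∀ X : Finset E, R v (X ∪ Finset.univ.image s) = R v' X + r

/-! ## Part 2: connectivity -/

/-- TOR (the torso of a partition in sets of connectivity one).
PROOF. Put `U_i = span (v '' X_i)`, `U^i = span (v '' (X_i)ᶜ)`; `dim (U_i ∩ U^i) = 1`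
(`Submodule.finrank_sup_add_finrank_inf_eq`), let `f_i ≠ 0` span it. As `U_i` is spanned by
`v '' X_i` and `f_i`, there is `S_i ⊆ X_i` such that `f_i` together with the `v e`, `e ∈ S_i`, is a
basis of `U_i` (extend the independent set `{f_i}` inside `{f_i} ∪ v '' X_i`; `v` injective on
`S_i`); so `R v S_i = |S_i| = R v X_i - 1`, `f_i ∉ span (v '' S_i)`, and there is `e_i ∈ X_i` with
`v e_i ∉ span (v '' S_i)` (otherwise `U_i` is too small); `e_i ∉ S_i`, and
`v e_i = c_i f_i + σ_i`, `σ_i ∈ span (v '' S_i)`, `c_i ≠ 0`. Let `S = ⋃ S_i`.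
(1) If `Σ_i σ_i = Σ_i β_i f_i` with `σ_i ∈ span (v '' S_i)` then all `σ_i = 0`:
`σ_j - β_j f_j = - Σ_{i≠j} (σ_i - β_i f_i)` is in `U_j ∩ U^j` (for `i ≠ j`, `X_i ⊆ (X_j)ᶜ`), so
`σ_j` is a multiple of `f_j`, and `σ_j ∈ span (v '' S_j)`, hence `0`. So `R v S = |S|` (the spans
of the `S_i` are independent).
(2) For every `J`: `U_J = span (v '' ⋃_{i∈J} X_i) = (⊕_{i∈J} span (v '' S_i)) ⊕ span {f_i | i ∈ J}`
(direct by (1)), so `R v (⋃_J X_i) = |S ∩ ⋃_J X_i| + dim span {f_i | i ∈ J}`; and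
`span (v '' (S ∪ {e_i | i ∈ J})) = span (v '' S) ⊕ span {f_i | i ∈ J}` (because
`v e_i - c_i f_i ∈ span (v '' S)`, `c_i ≠ 0`; direct by (1)), so
`R v (S ∪ e(J)) = |S| + dim span {f_i | i ∈ J}`. Subtract. -/
def S_TOR : Prop :=
  ∀ (K : Type u) [Field K] (E : Type) [Fintype E] [DecidableEq E] (q : ℕ) (v : E → Fin q → K)
    (k : ℕ) (X : Fin (k + 1) → Finset E), (∀ i j, i ≠ j → Disjoint (X i) (X j)) →
    Finset.univ.biUnion X = Finset.univ →
    (∀ i, R v (X i) + R v (X i)ᶜ = R v Finset.univ + 1) →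
    ∃ (S : Finset E) (e : Fin (k + 1) → E), (∀ i, e i ∈ X i ∧ e i ∉ S) ∧ R v S = S.card ∧
      ∀ J : Finset (Fin (k + 1)), R v (J.biUnion X) + S.card =
        (S ∩ J.biUnion X).card + R v (S ∪ J.image e)

/-- BWI (branch decompositions from torsos).
PROOF. CLAIM: for every nonempty `X` with `lam X ≤ 1`, `Dec lam w X`. Strong induction on `X.card`.
`X.card = 1`: `Dec.single`. Otherwise consider the partitions of `X` in `k ≥ 2` nonempty parts
`X_1, …, X_k` with `lam X_i ≤ 1` (singletons are one); take `k` minimal. `k = 2`: induction for both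
parts and `Dec.join`. `k ≥ 3`: for `J ⊆ {1..k}`, `2 ≤ |J| ≤ k - 1`, `lam (⋃_J X_i) ≥ 2` (otherwise
replace these parts by their union: `k - |J| + 1 ≥ 2` parts, fewer). So `lam X_i = 1`: if it is `0`,
`lam (X_i ∪ X_j) ≤ lam X_i + lam X_j ≤ 1` for `j ≠ i` (submodularity, `lam ∅ = 0`). Let
`X_0 = Xᶜ`, `lam X_0 = lam X ≤ 1`; if it is `0` then `lam (X_1 ∪ … ∪ X_{k-1}) = lam (X_0 ∪ X_k) ≤
lam X_0 + lam X_k ≤ 1`, a contradiction. So `X_0` is nonempty, `lam X_0 = 1`, and
`X_0, …, X_k` is a partition of everything; for `J ⊆ {0..k}` with `2 ≤ |J| ≤ k - 1` the value is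
`≥ 2` (if `0 ∈ J` pass to the complement). Hypothesis (H): all unions have `lam ≤ w`. Now
`Dec lam w (X_1 ∪ … ∪ X_j)` by induction on `j` (`Dec.join` with `Dec lam w X_j`, known because
`X_j` is smaller than `X`), and `j = k` is the claim. Finally `X = univ`, `lam univ = lam ∅ = 0`. -/
def S_BWI : Prop :=
  ∀ (E : Type) [Fintype E] [DecidableEq E] [Nonempty E] (lam : Finset E → ℕ) (w : ℕ),
    SymSub lam → lam ∅ = 0 → (∀ e, lam {e} ≤ 1) → 1 ≤ w →
    (∀ (k : ℕ) (X : Fin (k + 1) → Finset E), 3 ≤ k → (∀ i, (X i).Nonempty) →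
      (∀ i j, i ≠ j → Disjoint (X i) (X j)) → Finset.univ.biUnion X = Finset.univ →
      (∀ i, lam (X i) = 1) →
      (∀ J : Finset (Fin (k + 1)), 2 ≤ J.card → J.card + 2 ≤ k + 1 → 2 ≤ lam (J.biUnion X)) →
      ∀ J : Finset (Fin (k + 1)), lam (J.biUnion X) ≤ w) →
    Dec lam w Finset.univ

/-- LN (linking two pairs). Uses the landed `Pool.Agent.Helper64.IG.PkTLK.tlk : G_TLK`
(`Pool/Agent/Helper67/IG/TLK.lean`).
PROOF. `F = {a, b}`, `B = {c, d}`. `r F ≤ 2`, `r Fᶜ ≤ p`, and the hypothesis for `Y = F` gives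
`r F + r Fᶜ = 2 + p`. TLK with `k = 2` gives `C`, disjoint from `F`, `B`, `r C = |C|`,
`r (F ∪ C) + r (C ∪ B) = 2 + p + |C|`. Both terms are `≤ |C| + 2` and `≤ p`; if `|C| + 2 < p` the sum
is `≤ 2 |C| + 4 < 2 + p + |C|`, if `|C| + 2 > p` it is `≤ 2 p < 2 + p + |C|`. So `|C| + 2 = p` and
both terms are `p`. -/
def S_LN : Prop :=
  ∀ (E : Type) [Fintype E] [DecidableEq E] (r : Finset E → ℕ), r ∅ = 0 →
    (∀ X e, r X ≤ r (insert e X) ∧ r (insert e X) ≤ r X + 1) →
    (∀ X Y, r (X ∩ Y) + r (X ∪ Y) ≤ r X + r Y) →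
    ∀ (p : ℕ) (a b c d : E), [a, b, c, d].Nodup → r Finset.univ = p →
    (∀ Y, a ∈ Y → b ∈ Y → c ∉ Y → d ∉ Y → p + 2 ≤ r Y + r Yᶜ) →
    ∃ C : Finset E, a ∉ C ∧ b ∉ C ∧ c ∉ C ∧ d ∉ C ∧ C.card + 2 = p ∧
      r (insert a (insert b C)) = p ∧ r (insert c (insert d C)) = p

/-- SP (a connected configuration which is not uniform has a split quartet).
PROOF. A base is a set `B` with `|B| = p = R v B` (`v` injective and independent on it). Let
`|X| = p`, `R v X < p`, and take a base `B` with `|B ∩ X|` maximal. As `X ≠ B`, there is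
`e ∈ X \ B`, and `B \ X` is nonempty. Write `v e = Σ_{i∈B} A i e • v i` for all `e` (coordinates in
the basis); `insert e (B.erase i)` is a base iff `A i e ≠ 0` (for `e ∉ B`, `i ∈ B`). By maximality
`A i e = 0` for `i ∈ B \ X`. So there are `i0 ∈ B`, `e0 ∉ B` with `A i0 e0 = 0`.
CLAIM: there are `i, i' ∈ B`, `e, e' ∉ B` with `A i e, A i' e, A i' e' ≠ 0`, `A i e' = 0`. If not, let
`N = {e ∉ B | A i0 e ≠ 0}`, `Z = {i ∈ B | i = i0 ∨ ∃ e ∈ N, A i e ≠ 0} ∪ N`. For `i ∈ Z ∩ B`, `e' ∉ B`: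
`A i e' ≠ 0 → e' ∈ N` (for `i ≠ i0` with `e ∈ N`, `A i0 e ≠ 0`, `A i e ≠ 0`, `A i e' ≠ 0`, no claim
gives `A i0 e' ≠ 0`); for `i ∈ B \ Z`, `e ∈ N`: `A i e = 0` by definition. So the vectors of `Z` are
in the span of `Z ∩ B` and those of `Zᶜ` in the span of `B \ Z`: `R v Z + R v Zᶜ ≤ p`, a
contradiction (`i0 ∈ Z`, `e0 ∉ Z`).
Take `S = B \ {i, i'}`, `(a, b, c, d) = (i, e, i', e')`: `insert c (insert d S) = insert e' (B.erase i)`
has rank `< p` (`A i e' = 0`); `insert a (insert c S) = B`; `insert b (insert d S)`: modulo the span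
of `S`, `v e = A i e v_i + A i' e v_i'`, `v e' = A i' e' v_i'`, independent. All four are distinct
(`i ≠ i'` as `A i e' = 0 ≠ A i' e'`, `e ≠ e'` as `A i e ≠ 0 = A i e'`). -/
def S_SP : Prop :=
  ∀ (K : Type u) [Field K] (E : Type) [Fintype E] [DecidableEq E] (p : ℕ) (v : E → Fin p → K),
    R v Finset.univ = p →
    (∀ Z : Finset E, Z.Nonempty → Zᶜ.Nonempty → p + 1 ≤ R v Z + R v Zᶜ) →
    (∃ X : Finset E, X.card = p ∧ R v X < p) →
    ∃ (S : Finset E) (a b c d : E), S.card + 2 = p ∧ [a, b, c, d].Nodup ∧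
      (a ∉ S ∧ b ∉ S ∧ c ∉ S ∧ d ∉ S) ∧ R v (insert c (insert d S)) < p ∧
      R v (insert a (insert c S)) = p ∧ R v (insert b (insert d S)) = p

/-- UN (a 3-connected form with the cross-ratio equations is uniform). USES: LN, SP.
PROOF. `r = R v` satisfies the hypotheses of LN (`finrank` facts). `ω a ≠ 0` iff the `v (a j)` are
independent (`PkRK1.det_ne_zero_iff` in `Pool/Agent/Helper74/IG/RK1.lean`), so for injective `a`
iff `R v (im a) = p`. `λ(Z) = R v Z + R v Zᶜ - p ≥ 1` for `Z`, `Zᶜ` nonempty: if both have `≥ 2`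
elements by hypothesis; if `Z = {g}` and `R v {g} + R v {g}ᶜ ≤ p`, take `h ≠ g`: by submodularity
`R v {g,h} + R v {g,h}ᶜ ≤ (R v {g} + R v {g}ᶜ) + (R v {h} + R v {h}ᶜ) - (R v ∅ + R v univ) ≤
p + (1 + p) - p < p + 2`, against the hypothesis (`card E ≥ 4`). Suppose `ω a = 0`, `a` injective:
`X = im a` has `|X| = p`, `R v X < p`, so SP gives `S, a, b, c, d`. LN for `(a, b), (c, d)` gives `C`.
With `p = q + 2` list `S` and `C` as injective `s, s' : Fin q → E`, `u = cons a (cons b s)`,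
`u' = cons a (cons b s')`, `i = 0`, `j = 1`: in CR the left side has the factor
`ω (up u 0 1 c d) = 0` (`R v (S ∪ {c, d}) < p`), and the right side is
`ω(a,c;S) ω(b,d;S) ω(a,b;C) ω(c,d;C) ≠ 0`. Contradiction. -/
def S_UN : Prop :=
  ∀ (K : Type u) [Field K] (E : Type) [Fintype E] [DecidableEq E] (p : ℕ)
    (ω : (Fin p → E) → K) (c : K) (v : E → Fin p → K), Rep ω c v → c ≠ 0 → CR ω →
    4 ≤ Fintype.card E → R v Finset.univ = p →
    (∀ Z : Finset E, 2 ≤ Z.card → 2 ≤ Zᶜ.card → p + 2 ≤ R v Z + R v Zᶜ) → Unif ω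

/-- ST (structure theorem). USES: TOR, BWI, CN, UN, and the landed `PkRK1.rk1 : G_RK1`.
PROOF. `ω a = c det (v (a j) i)`, `c ≠ 0`, `rk ω = R v` (RK1), `R v univ = q`, so
`conn ω X + q = R v X + R v Xᶜ`; `conn ω` is symmetric, submodular (`R v` is), `conn ω ∅ = 0`,
`conn ω {e} ≤ 1`. By BWI (contrapositive, `E = Ix m q`) there are `k ≥ 3` and a partition `X` as in
(H) and `J0` with `w < conn ω (⋃_{J0} X_i)`. TOR gives `S`, `e`; list `S` as an injective
`s : Fin r → Ix m q`, `r = |S| = R v S`, so `v ∘ s` is independent, `r ≤ q`; `p := q - r`,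
`eq : Fin q ≃ Fin p ⊕ Fin r` any. CN gives `c', v'`. Put `N = k + 1`, `ω' a = ω (Sum.elim (e ∘ a) s ∘ eq)
= c' det (v'' (a j) i)` with `v'' = v' ∘ e : Fin N → _`. For `J : Finset (Fin N)`:
`R v'' J + r = R v' (e(J)) + r = R v (S ∪ e(J))`, so by TOR
`R v (⋃_J X) = |S ∩ ⋃_J X| + R v'' J`; adding `J` and `Jᶜ` (`⋃_{Jᶜ} X = (⋃_J X)ᶜ`):
`conn ω (⋃_J X) + q = r + R v'' J + R v'' Jᶜ`, i.e. `R v'' J + R v'' Jᶜ = conn ω (⋃_J X) + p`.
`J = univ`: `R v'' univ = p`. `ω'` satisfies CR (`Sum.elim (e ∘ up u i j a b) s ∘ eq =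
up (Sum.elim (e ∘ u) s ∘ eq) (eq.symm (inl i)) (eq.symm (inl j)) (e a) (e b)`). UN: `ω'` is uniform
(`N ≥ 4`; `|J|, |Jᶜ| ≥ 2` gives `R v'' J + R v'' Jᶜ ≥ p + 2`). For `J0`:
`w + p < R v'' J0 + R v'' J0ᶜ ≤ min (2 p) N` (rank `≤ p`, rank `≤` cardinality): `w < p`,
`w + p < N`. `Sum.elim e s` is injective: the `e i` are in disjoint sets and not in `S`. -/
def S_ST : Prop :=
  ∀ (K : Type u) [Field K] (m q w : ℕ) (ω : Form K m q), ω ≠ 0 → IsDec ω → CR ω → 1 ≤ w →
    1 ≤ m + q → ¬ BWLe w ω →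
    ∃ (p r N : ℕ) (eq : Fin q ≃ Fin p ⊕ Fin r) (s : Fin r → Ix m q) (e : Fin N → Ix m q),
      Function.Injective (Sum.elim e s) ∧ w < p ∧ w + p < N ∧
      Unif (fun a : Fin p → Fin N => ω (Sum.elim (e ∘ a) s ∘ eq))

/-! ## Part 3: uniform forms are rational normal curves -/

/-- CA (generalized Cauchy matrices).
PROOF. Put `P = p + 2`. All `P`-subsets of the vectors `v e` are bases (`ω ≠ 0` there). Let
`B = {0, …, P-1} ⊂ Fin N` (vectors `v_i`, `i < P`), `o = 0 ∈ B`, `g = P ∉ B` (`N ≥ P + 2`), and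
`v_e = Σ_{i∈B} A_ie v_i`; all `A_ie ≠ 0` for `e ∉ B` (Cramer). For `e ∉ B`, `i ∈ B \ {o}` let
`R_ie = 1 - A_oe A_ig / (A_og A_ie)`; so `R_ig = 0`, and `R_ie ≠ 0` for `e ≠ g` (`A_ie R_ie` is up to
a nonzero factor the coordinate of the tuple with `o, i` replaced by `g, e`). CR for the quartet
`i, i', e, e'` (`i ≠ i'` in `B \ {o}`, `e ≠ e'` not in `B ∪ {g}`), `u` = the tuple of `B`, `u'` = the
same with `g` in place of `o`: coordinates of `u` with `i` replaced by `e`: `A_ie`; with `o ↦ g` and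
`i ↦ e`: `A_ie A_og - A_oe A_ig = A_og A_ie R_ie` up to a common sign; CR says
`A_ie A_i'e' (A_ie' R_ie')(A_i'e R_i'e) = A_ie' A_i'e (A_ie R_ie)(A_i'e' R_i'e')`, i.e.
`R_ie' R_i'e = R_ie R_i'e'`. Hence with `i0 = 1`, `e1 = P + 1` (`≠ g`): `R_ie = z_e / z_i` where
`z_e = R_{i0 e}` (`e ∉ B`, so `z_g = 0`), `z_i = R_{i0 e1} / R_{i e1}` (`i ∈ B \ {o}`, nonzero); it also
holds for `e = g`. So `A_ie = (A_oe A_ig / A_og) z_i / (z_i - z_e)` (`z_i ≠ z_e` as
`1 - z_e/z_i = A_oe A_ig/(A_og A_ie) ≠ 0`). Put `u_i = (A_ig z_i / A_og) v_i` and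
`Φ(x) = ∏_{i}(z_i - x) v_o + Σ_i ∏_{i'≠i} (z_i' - x) u_i` (`i, i' ∈ B \ {o}`): each coordinate is a
polynomial in `x` of degree `≤ P - 1`, so `Φ(x) = M (1, x, …, x^(P-1))` with a matrix `M`. For
`e ∉ B`: `∏_i (z_i - z_e) v_e = A_oe Φ(z_e)`; for `i ∈ B \ {o}`: `Φ(z_i) = ∏_{i'≠i}(z_i' - z_i) u_i`.
[Distinctness of the `z_i`, `i ∈ B \ {o}`: if `z_i = z_i'` then by the formula the rows `i`, `i'` of
`A` are proportional on all `e ∉ B` (factor `A_ig/A_i'g`), contradicting that the coordinate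
with `i, i'` replaced by `g, e1`, a nonzero multiple of `A_ig A_i'e1 - A_ie1 A_i'g`, is nonzero.]
So `v_e = t_e Φ(z_e)` with `t_e ≠ 0` for all `e ≠ o`, and for tuples avoiding `o`:
`ω a = c det (v_{a_j}) = c det M det (t z^i)`. `det M ≠ 0` and `z` is injective off `o`, because
`ω a ≠ 0` for injective `a` avoiding `o`, and any two elements `≠ o` are in such a tuple
(`N - 1 ≥ P ≥ 2`). -/
def S_CA : Prop :=
  ∀ (K : Type u) [Field K] (p N : ℕ) (ω : (Fin (p + 2) → Fin N) → K) (c : K)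
    (v : Fin N → Fin (p + 2) → K), Rep ω c v → c ≠ 0 → CR ω → Unif ω → p + 4 ≤ N →
    ∃ (o : Fin N) (c' : K) (t z : Fin N → K), c' ≠ 0 ∧ (∀ e, e ≠ o → t e ≠ 0) ∧
      (∀ e e', e ≠ o → e' ≠ o → z e = z e' → e = e') ∧
      ∀ a : Fin (p + 2) → Fin N, (∀ j, a j ≠ o) →
        ω a = c' * Matrix.det (fun i j : Fin (p + 2) => t (a j) * z (a j) ^ (i : ℕ))

/-- CB (the same for all ranks). USES: CA.
PROOF. `p ≥ 2` is CA. `p = 0`: `c' = ω Fin.elim0 ≠ 0`, `t = 1`, `z` any injective map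
(`Fin N → K`, `K` infinite). `p = 1`: `t e = ω (fun _ => e) ≠ 0`, `c' = 1`, `z` injective
(`det` of a `1 × 1` matrix, `z ^ 0 = 1`); `o = 0`. -/
def S_CB : Prop :=
  ∀ (K : Type u) [Field K] [Infinite K] (p N : ℕ) (ω : (Fin p → Fin N) → K) (c : K)
    (v : Fin N → Fin p → K), Rep ω c v → c ≠ 0 → CR ω → Unif ω → p + 2 ≤ N →
    ∃ (o : Fin N) (c' : K) (t z : Fin N → K), c' ≠ 0 ∧ (∀ e, e ≠ o → t e ≠ 0) ∧
      (∀ e e', e ≠ o → e' ≠ o → z e = z e' → e = e') ∧
      ∀ a : Fin p → Fin N, (∀ j, a j ≠ o) →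
        ω a = c' * Matrix.det (fun i j : Fin p => t (a j) * z (a j) ^ (i : ℕ))

/-! ## Part 4: moving minors -/

/-- RD (contracting a uniform minor further).
PROOF. `P = p + l`. Let `N' = N - l`, `e' = e ∘ (Fin N' → Fin N, x ↦ x)` (castLE), `s'` on
`Fin (l + r)`: the elements `e (N' + i)`, `i < l`, then `s`. `eq' : Fin q ≃ Fin p ⊕ Fin (l + r)`
is `eq` followed by `Fin P ≃ Fin p ⊕ Fin l` (`finSumFinEquiv.symm` after a cast), associativity and
`Fin l ⊕ Fin r ≃ Fin (l + r)`. Then `Sum.elim (e' ∘ a) s' ∘ eq' = Sum.elim (e ∘ a') s ∘ eq` with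
`a' : Fin P → Fin N` given by `a` on the first `p` and `N' + i` on the last `l` positions, injective
if `a` is. `Sum.elim e' s'` is injective because `Sum.elim e s` is. -/
def S_RD : Prop :=
  ∀ (K : Type u) [Field K] (E : Type) (q P r N p l : ℕ) (ω : (Fin q → E) → K)
    (eq : Fin q ≃ Fin P ⊕ Fin r) (s : Fin r → E) (e : Fin N → E), P = p + l → P ≤ N →
    Function.Injective (Sum.elim e s) →
    Unif (fun a : Fin P → Fin N => ω (Sum.elim (e ∘ a) s ∘ eq)) →
    ∃ (r' N' : ℕ) (eq' : Fin q ≃ Fin p ⊕ Fin r') (s' : Fin r' → E) (e' : Fin N' → E),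
      N' + l = N ∧ Function.Injective (Sum.elim e' s') ∧
      Unif (fun a : Fin p → Fin N' => ω (Sum.elim (e' ∘ a) s' ∘ eq'))

/-- DN (levels below).
PROOF. Induction on `m - n` (with `r = 0`: `xi_eq`, `inc (inc a) = inc a`), then on `r`:
`x.x m p' b = x.x m (p' + 1) (cons (inr (last p')) (inc ∘ b))` (`theta_eq`); with
`b = Sum.elim (inc ∘ a) s ∘ eq`, `Fin.cons _ (inc ∘ b) = Sum.elim (inc ∘ a) s_new ∘ eq_new`, where
`eq_new 0 = inr (last r)`, `eq_new (succ j) = (eq j)` followed by `Fin r → Fin (r + 1)` (castSucc). -/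
def S_DN : Prop :=
  ∀ (n p m r : ℕ) (hn : n ≤ m), ∃ eq : Fin (p + r) ≃ Fin p ⊕ Fin r,
    ∀ (K : Type u) [Field K] (x : Pt K) (a : Fin p → Ix n p),
      x.x n p a = x.x m (p + r) (Sum.elim (inc hn (Nat.le_add_right p r) ∘ a)
        (fun i : Fin r => (Sum.inr (Fin.natAdd p i) : Ix m (p + r))) ∘ eq)

/-- MV (moving a minor into place). USES: DN, and the landed `PkACT.act : G_ACT`.
PROOF. `q = p + r` and `n ≤ m` (cardinalities). Work at the level `(m + 1, q + 1)`, `q + 1 = p +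
(r + 1)`; `inc'` is `inc` from `(m, q)`. Let `σ` be a permutation of `Ix (m + 1) (q + 1)` with
`σ (inc x) = inc' (ι x)` (`x ∈ Ix n p`), `σ (inr (p + i)) = inc' (s i)` (`i < r`),
`σ (inr q) = inr q` (an injective map defined on a subset extends to a permutation), and
`t (inc x) = T x`, `t (inr q) = c1`, `t (inl (last m)) = c2`, `t = 1` elsewhere, with
`c2 = (sign σ * ∏ T * c1)⁻¹` so that the determinant is `1` (`inl (last m)` is not in the image of `inc`
as `n ≤ m`). ACT gives `y` with `IsPull g x y` (`g : Mono K (m + 1) (q + 1)`), `y ∈ C`, and at its own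
level `y.x _ _ A = (∏ t (A j)) * x.x _ _ (σ ∘ A)` (`g.s le_rfl le_rfl = g.σ`: `s_self`, `c_self` in
`Pool/Agent/Helper99/IG/MONO.lean`). By DN for `(n, p) → (m + 1, p + (r + 1))`, `y.x n p a` is the
value at `A = Sum.elim (inc ∘ a) (inr (p + ·)) ∘ eq1`: `∏ t (A j) = (∏ T (a j)) * c1` (the positions
`inr (p + i)`, `i < r`, give `1`), and `σ ∘ A = Sum.elim (inc' ∘ ι ∘ a) (snoc (inc' ∘ s) (inr q)) ∘ eq1`.
On the other hand `x.x m q B = x.x (m + 1) (q + 1) (cons (inr q) (inc' ∘ B))` (`theta_eq`, `xi_eq`)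
for `B = Sum.elim (ι ∘ a) s ∘ eq`. The two tuples differ by a permutation `τ` of the positions that
does not depend on `a`, and the form is alternating (`dec`, `Matrix.det_permute'`), so
`y.x n p a = (∏ T (a j)) * c1 * sign τ * x.x m q B`. Choose `c1 = c0 * sign τ`. -/
def S_MV : Prop :=
  ∀ (K : Type u) [Field K] (C : Set (Pt K)), NStable Set.univ C → ∀ x ∈ C,
    ∀ (n p m q r : ℕ) (eq : Fin q ≃ Fin p ⊕ Fin r) (s : Fin r → Ix m q) (ι : Ix n p → Ix m q),
    Function.Injective (Sum.elim ι s) → ∀ (T : Ix n p → K) (c0 : K), (∀ e, T e ≠ 0) → c0 ≠ 0 →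
    ∃ y ∈ C, ∀ a : Fin p → Ix n p,
      y.x n p a = c0 * (∏ j, T (a j)) * x.x m q (Sum.elim (ι ∘ a) s ∘ eq)

/-- SZ (polynomial argument).
PROOF. Let `W = Option (Ix n p ⊕ Ix n p)`, `Φ a = X none * det (X (some (inl (a j))) *
X (some (inr (a j))) ^ i)` in `MvPolynomial W K`, `F = aeval Φ f`; evaluated at `(c, t, z)` it is the
value of `f` at the form. `F ≠ 0` by hypothesis, so
`G = F * X none * ∏_e X (some (inl e)) * ∏_{e ≠ e'} (X (some (inr e)) - X (some (inr e')))` is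
nonzero (domain). `D = G.totalDegree + 1`. Let `Z' ⊂ K` be a set with `D` elements
(`Infinite.exists_subset_card_eq`); by `MvPolynomial.eq_zero_of_eval_zero_at_prod_finset` (for the
sets `Z'` at `none`, `inl e`, and `Z` at `inr e`; `degreeOf ≤ totalDegree`) `G` does not vanish at
some point, which is the required one. -/
def S_SZ : Prop :=
  ∀ (k K : Type u) [Field k] [Field K] [Algebra k K] [Infinite K] (n p : ℕ)
    (f : MvPolynomial (Fin p → Ix n p) k),
    (∃ ω : Form K n p, IsRNC ω ∧ MvPolynomial.aeval ω f ≠ 0) →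
    ∃ D : ℕ, ∀ Z : Finset K, D ≤ Z.card → ∃ (c : K) (t z : Ix n p → K), c ≠ 0 ∧
      (∀ e, t e ≠ 0) ∧ Function.Injective z ∧ (∀ e, z e ∈ Z) ∧
      MvPolynomial.aeval (fun a : Fin p → Ix n p =>
        c * Matrix.det (fun i j : Fin p => t (a j) * z (a j) ^ (i : ℕ))) f ≠ 0

/-- FI (closed stable proper subsets have bounded branch-width). USES: CRX, ST, CN, CB, RD, MV, SZ.
PROOF. `C = {x | ∀ e ∈ S, Sat x e}`. As `RNC ⊄ C`, some `e0 ∈ S` does not hold on all of `RNC`, so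
(definition of `RNC`) `e0.f` does not vanish at some `IsRNC` form. SZ gives `D`; let
`w = D + n + p + 2` with `(n, p) = (e0.n, e0.p)`. Suppose `x ∈ C`, `x ∉ BW K w`: `¬ BWLe w (x.x m q)`
for some `m, q ≥ 1`; `ω = x.x m q ≠ 0` (the zero form has `rk = 0`, `conn = 0`, and any tree
does: `dec_all` in `Pool/Agent/Helper77/IG/REP.lean`). ST (CR by CRX, as `C ⊆ RNC`) gives a uniform
minor of rank `P > w ≥ p` with `N > w + P` elements; RD with `l = P - p` gives
`eq', s', e'` of rank `p` with `N' = N - P + p > w` elements. The form `ω'` (of `Fin N'`) has the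
form `Rep`: by CN, applied to `eq', s'` (`v ∘ s'` is independent because some coordinate
`ω (Sum.elim (e' ∘ a) s' ∘ eq')`, `a` injective, is nonzero; `N' ≥ p`), and satisfies CR (as in ST).
CB gives `o, c', t', z'`. `Z = {z' e | e ≠ o}` has `N' - 1 ≥ D` elements. SZ gives `c, t, z`; let
`ε : Ix n p → Fin N'` with `z' (ε x) = z x`, `ε x ≠ o` (injective as `z` is). MV with
`ι = e' ∘ ε`, `T x = t x / t' (ε x)`, `c0 = c / c'` gives `y ∈ C` with
`y.x n p a = c0 (∏ T (a j)) c' det (t' (ε (a j)) z (a j)^i) = c det (t (a j) z (a j)^i)`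
(`Matrix.det_mul_row`), so `e0` does not hold at `y ∈ C`. Contradiction. -/
def S_FI : Prop :=
  ∀ (k K : Type u) [Field k] [Field K] [Algebra k K] [Infinite K] (C : Set (Pt K)),
    IsZClosed k C → NStable Set.univ C → C ⊆ RNC k K → C ≠ RNC k K → ∃ w, C ⊆ BW K w

/-- CH (chains). USES: FI, and the landed `Pool.Agent.Helper64.IG.final`.
PROOF. If `C j = RNC` for all `j` there is nothing to show. Otherwise `C j1 ≠ RNC` for some `j1`,
`C j1 ⊆ BW K w` by FI, and `final` applies to the chain `j ↦ C (j1 + j)` (stability under `univ`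
implies stability under `{1, -1}`). -/
def S_CH : Prop :=
  ∀ (k K : Type u) [Field k] [Field K] [Algebra k K] [Infinite K] (C : ℕ → Set (Pt K)),
    (∀ j, IsZClosed k (C j)) → (∀ j, NStable Set.univ (C j)) → Antitone C → C 0 ⊆ RNC k K →
    ∃ j₀, ∀ j ≥ j₀, C j = C j₀

/-! ## Part 5: unbounded branch-width -/

/-- PT (points).
PROOF. Let `z' : Ix n p → K` be `z` after `Fin n ⊕ Fin p → ℕ ⊕ ℕ`, `t_p e = ∏ (z' e - z (inr i))⁻¹`
over all `i < p` with `inr i ≠ e`, `c_p = ∏_{i<p} ∏_{j<i} (z (inr i) - z (inr j))` and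
`x.x n p a = c_p * (∏ t_p (a j)) * ∏_{i<j} (z' (a j) - z' (a i))`. Decomposable and `IsRNC`
(Vandermonde), uniform because `z` is injective. `xi`: clear. `theta`: with `e = inr p` (index of
`x_{p+1}`): the value at `cons e (inc ∘ a)` is
`c_{p+1} t_{p+1} e (∏ t_{p+1}(a j) (z'(a j) - z' e)) ∏_{i<j} (…)`, and
`t_{p+1}(b) (z' b - z' e) = t_p b` for `b ≠ e`, `c_{p+1} t_{p+1} e = c_p`. (If `a j` repeats a value
both sides are `0`.) -/
def S_PT : Prop :=
  ∀ (K : Type u) [Field K] (z : ℕ ⊕ ℕ → K), Function.Injective z →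
    ∃ x : Pt K, ∀ n p, IsRNC (x.x n p) ∧ Unif (x.x n p)

/-- UB (uniform forms have large branch-width).
PROOF. `E = Ix p p`, `|E| = 2 p`. `rk ω X ≥ min |X| p` (choose an injective `a` whose image contains
`min |X| p` elements of `X`), so `conn ω X ≥ min |X| p + min |Xᶜ| p - p ≥ min |X| |Xᶜ|`
(`|X| + |Xᶜ| = 2 p`; say `|X| ≤ p ≤ |Xᶜ|`). LEMMA: `Dec lam w X` and `2 |E| < 3 |X|`, `2 ≤ |E|` give
`Z` with `lam Z ≤ w` and `|E| ≤ 3 |Z| ≤ 2 |E|`. Induction: `single`: `2 |E| < 3` is impossible.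
`join A B`: if `2 |E| < 3 |A|` or `2 |E| < 3 |B|` use induction; otherwise, as
`3 |A| + 3 |B| > 2 |E|`, one of them, say `A`, has `3 |A| > |E|`, and `lam A ≤ w` (a lemma:
`Dec lam w A → lam A ≤ w`). For `X = univ`: `2 p ≤ 3 |Z| ≤ 4 p`, so `min |Z| |Zᶜ| ≥ 2 p / 3 > w`. -/
def S_UB : Prop :=
  ∀ (K : Type u) [Field K] (p w : ℕ) (ω : Form K p p), Unif ω → 3 * w + 3 ≤ p → ¬ BWLe w ω

/-- NB. USES: PT, UB. PROOF. `K` infinite: an injective `z : ℕ ⊕ ℕ → K` exists. `x` of PT is in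
`RNC` (every level is `IsRNC`), and `x ∉ BW K w` by UB at the level `(p, p)`, `p = 3 w + 3`. -/
def S_NB : Prop :=
  ∀ (k K : Type u) [Field k] [Field K] [Algebra k K] [Infinite K] (w : ℕ), ¬ RNC k K ⊆ BW K w

/-- MAIN. USES: NS, FI, CH, NB. (`IsZClosed` is clear from the definition.) -/
def S_MAIN : Prop :=
  ∀ (k K : Type u) [Field k] [Field K] [Algebra k K] [Infinite K],
    IsZClosed k (RNC k K) ∧ NStable Set.univ (RNC k K) ∧ (∀ w, ¬ RNC k K ⊆ BW K w) ∧
    (∀ C : Set (Pt K), IsZClosed k C → NStable Set.univ C → C ⊆ RNC k K → C ≠ RNC k K →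
      ∃ w, C ⊆ BW K w) ∧
    ∀ C : ℕ → Set (Pt K), (∀ j, IsZClosed k (C j)) → (∀ j, NStable Set.univ (C j)) →
      Antitone C → C 0 ⊆ RNC k K → ∃ j₀, ∀ j ≥ j₀, C j = C j₀

end Pool.Agent.Helper64.RN
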