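import Pool.Agent.Helper64.RN.Main
import Pool.Agent.Helper70.RN.CA

universe u

namespace Pool.Agent.Helper64.RN

theorem final : S_MAIN.{u} := Main.main Pool.Agent.Helper70.RN.CA.t

end Pool.Agent.Helper64.RN
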