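import Pool.Agent.Helper64.RN.Goals2
import Pool.Agent.Helper74.IG.RK1

universe u

namespace Pool.Agent.Helper64.RN.DI

open Pool.Agent.Helper64.IG Pool.Agent.Helper64.RN

theorem eval_f1 {k K : Type u} [Field k] [Field K] [Algebra k K] {σ : Type} (b y : σ → K)
    (f : MvPolynomial σ k) :
    MvPolynomial.eval y (MvPolynomial.bind₁ (fun a => MvPolynomial.C (b a) * MvPolynomial.X a)
      (MvPolynomial.map (algebraMap k K) f)) = MvPolynomial.aeval (fun a => b a * y a) f := by
  have h1 : MvPolynomial.eval y (MvPolynomial.bind₁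
      (fun a => MvPolynomial.C (b a) * MvPolynomial.X a)
      (MvPolynomial.map (algebraMap k K) f)) =
      MvPolynomial.eval (fun a => b a * y a) (MvPolynomial.map (algebraMap k K) f) := by
    have h2 := MvPolynomial.aeval_bind₁ (R := K) (f := y)
      (g := fun a => MvPolynomial.C (b a) * MvPolynomial.X a)
      (φ := MvPolynomial.map (algebraMap k K) f)
    have e : ∀ (x : σ → K) (g : MvPolynomial σ K), MvPolynomial.aeval x g = MvPolynomial.eval x g :=
      fun x g => by
        rw [MvPolynomial.aeval_def, MvPolynomial.eval₂_eq_eval_map, Algebra.algebraMap_self,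
          MvPolynomial.map_id]
    simp only [e, map_mul, MvPolynomial.eval_C, MvPolynomial.eval_X] at h2
    exact h2
  rw [h1, MvPolynomial.eval_map, MvPolynomial.aeval_def]

theorem t (hCN : S_CN.{u}) (hMV : S_MV.{u}) (hSZ : S_SZ.{u}) (hHM : S_HM.{u}) (hHC : S_HC.{u}) :
    S_DI.{u} := by
  classical
  intro k K _ _ _ _ C hcl hst
  by_cases hM : ∃ M : ℕ, ∀ x ∈ C, ∃ a : Fin M → Ix M M, Function.Injective a ∧ x.x M M a = 0
  · exact Or.inr hM
  left
  push Not at hM
  obtain ⟨S, hS⟩ := hcl
  by_contra hsub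
  obtain ⟨x0, hx0, hx0C⟩ := Set.not_subset.mp hsub
  rw [hS] at hx0C
  have hx1 : ∃ e0 ∈ S, ¬ Sat x0 e0 := by
    by_contra hcon
    push Not at hcon
    exact hx0C hcon
  obtain ⟨e0, he0, he0x⟩ := hx1
  have hx2 : ∃ ω : Form K e0.n e0.p, IsRNC ω ∧ MvPolynomial.aeval ω e0.f ≠ 0 := by
    by_contra hcon
    push Not at hcon
    exact he0x (hx0 e0 hcon)
  have : Infinite K := CharZero.infinite K
  obtain ⟨D, hD⟩ := hSZ k K e0.n e0.p e0.f hx2
  set n := e0.n with hn
  set p := e0.p with hp
  obtain ⟨c1, t1, z1, hc1, ht1, hz1, hz1Z, hne1⟩ := hD ((Finset.range D).image (fun i : ℕ => (i : K)))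
    (by rw [Finset.card_image_of_injective _ Nat.cast_injective, Finset.card_range])
  have hzN : ∀ e, ∃ m : ℕ, z1 e = (m : K) := by
    intro e
    have := hz1Z e
    rw [Finset.mem_image] at this
    obtain ⟨m, -, hm⟩ := this
    exact ⟨m, hm.symm⟩
  choose z hz using hzN
  let b : (Fin p → Ix n p) → K := fun a => c1 * ∏ j, t1 (a j)
  let f1 : MvPolynomial (Fin p → Ix n p) K :=
    MvPolynomial.bind₁ (fun a => MvPolynomial.C (b a) * MvPolynomial.X a)
      (MvPolynomial.map (algebraMap k K) e0.f)
  have hf1 : ∀ y, MvPolynomial.eval y f1 = MvPolynomial.aeval (fun a => b a * y a) e0.f :=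
    fun y => eval_f1 b y e0.f
  let V : (Fin p → Ix n p) → K :=
    fun a => Matrix.det (fun i j : Fin p => (z (a j) : K) ^ (i : ℕ))
  have hV : MvPolynomial.eval V f1 ≠ 0 := by
    rw [hf1]
    convert hne1 using 2
    congr 1
    funext a
    have h3 : Matrix.det (fun i j : Fin p => t1 (a j) * z1 (a j) ^ (i : ℕ)) =
        (∏ j, t1 (a j)) * Matrix.det (fun i j : Fin p => (z (a j) : K) ^ (i : ℕ)) := by
      rw [← Matrix.det_mul_row]
      congr 1
      ext i j
      simp only [Matrix.of_apply, hz]
    rw [h3]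
    simp only [b, V]
    ring
  obtain ⟨h, hh⟩ : ∃ h, MvPolynomial.eval V (MvPolynomial.homogeneousComponent h f1) ≠ 0 := by
    by_contra hcon
    push Not at hcon
    apply hV
    rw [← MvPolynomial.sum_homogeneousComponent f1, map_sum]
    exact Finset.sum_eq_zero fun i _ => hcon i
  apply hh
  refine hHM K n p h _ (MvPolynomial.homogeneousComponent_isHomogeneous h f1) ?_ z
  intro M
  obtain ⟨x, hx, hxU⟩ := hM (M + p)
  let s : Fin M → Ix (M + p) (M + p) := fun i => Sum.inr ⟨p + i, by omega⟩
  let e : Fin M → Ix (M + p) (M + p) := fun i => Sum.inl ⟨i, by omega⟩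
  let eq : Fin (M + p) ≃ Fin p ⊕ Fin M := (finCongr (Nat.add_comm M p)).trans finSumFinEquiv.symm
  have hs : Function.Injective s := by
    intro i j hij
    simp only [s, Sum.inr.injEq, Fin.mk.injEq] at hij
    exact Fin.ext (by omega)
  have he : Function.Injective e := by
    intro i j hij
    simp only [e, Sum.inl.injEq, Fin.mk.injEq] at hij
    exact Fin.ext (by omega)
  have helim : ∀ {N : Type} (a : N → Fin (M + p)), Function.Injective a →
      Function.Injective (Sum.elim (fun j => (Sum.inl (a j) : Ix (M + p) (M + p))) s) := by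
    intro N a ha
    rintro (i | i) (j | j) hij
    · simp only [Sum.elim_inl, Sum.inl.injEq] at hij
      rw [ha hij]
    · simp [s] at hij
    · simp [s] at hij
    · simp only [Sum.elim_inr] at hij
      rw [hs hij]
  obtain ⟨c, φ, hφ⟩ := x.dec (M + p) (M + p)
  set v : Ix (M + p) (M + p) → Fin (M + p) → K := fun e i => φ i e with hv
  have hne : ∀ a : Fin p → Fin (M + p), Function.Injective a →
      x.x (M + p) (M + p) (Sum.elim (fun j => (Sum.inl (a j) : Ix (M + p) (M + p))) s ∘ eq) ≠ 0 :=
    fun a ha => hxU _ ((helim a ha).comp eq.injective)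
  have hne0 := hne (Fin.castLE (by omega)) (Fin.castLE_injective _)
  rw [hφ] at hne0
  have hc : c ≠ 0 := left_ne_zero_of_mul hne0
  have hli : LinearIndependent K (fun i => v (s i)) := by
    have hdet := right_ne_zero_of_mul hne0
    have hli := (PkRK1.det_ne_zero_iff v _).mp hdet
    have := hli.comp (fun i : Fin M => eq.symm (Sum.inr i))
      (eq.symm.injective.comp Sum.inr_injective)
    simpa [Function.comp_def] using this
  obtain ⟨c', v', hc', hdet, -⟩ := hCN K (Ix (M + p) (M + p)) (M + p) p M eq c v s hc hli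
  have hval : ∀ a : Fin p → Ix (M + p) (M + p), x.x (M + p) (M + p) (Sum.elim a s ∘ eq) =
      c' * Matrix.det (fun i j : Fin p => v' (a j) i) := by
    intro a
    rw [← hdet, hφ]
    rfl
  refine ⟨fun i => v' (e i), ?_, ?_⟩
  · intro a ha
    have h1 := hne (fun j => ⟨a j, by omega⟩) (by
      intro i j hij
      simp only [Fin.mk.injEq] at hij
      exact ha (Fin.ext hij))
    have h2 := hval (fun j => e (a j))
    rw [show (fun j => e (a j)) = (fun j => (Sum.inl ⟨a j, by omega⟩ : Ix (M + p) (M + p))) from rfl]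
      at h2
    rw [h2] at h1
    exact right_ne_zero_of_mul h1
  · intro ι hι
    refine hHC K _ f1 (fun a => Matrix.det (fun i j : Fin p => v' (e (ι (a j))) i)) ?_ h
    intro l hl
    obtain ⟨y, hyC, hy⟩ := hMV K C hst x hx n p (M + p) (M + p) M eq s (e ∘ ι) (by
      have := helim (fun i : Ix n p => (⟨ι i, by omega⟩ : Fin (M + p))) (by
        intro i j hij
        simp only [Fin.mk.injEq] at hij
        exact hι (Fin.ext hij))
      exact this) t1 (c1 * l / c') ht1 (div_ne_zero (mul_ne_zero hc1 hl) hc')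
    rw [hS] at hyC
    have hsat := hyC e0 he0
    unfold Sat at hsat
    rw [hf1, ← hsat]
    congr 2
    funext a
    rw [hy a]
    have h2 := hval ((e ∘ ι) ∘ a)
    rw [h2]
    simp only [b, Function.comp_apply]
    generalize Matrix.det (fun i j : Fin p => v' (e (ι (a j))) i) = B
    generalize (∏ j, t1 (a j)) = A
    have : c1 * l = c1 * l / c' * c' := by rw [div_mul_cancel₀ _ hc']
    calc c1 * A * (l * B) = (c1 * l) * (A * B) := by ring
      _ = (c1 * l / c' * c') * (A * B) := by rw [← this]
      _ = _ := by ring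

end Pool.Agent.Helper64.RN.DI
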