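import Pool.Agent.Helper64.RN.Goals2

universe u

namespace Pool.Agent.Helper64.RN.HC

open Pool.Agent.Helper64.IG Pool.Agent.Helper64.RN

theorem eval_hom {K : Type u} [Field K] {σ : Type} {g : MvPolynomial σ K} {m : ℕ}
    (hg : g.IsHomogeneous m) (x : σ → K) (l : K) :
    MvPolynomial.eval (fun i => l * x i) g = l ^ m * MvPolynomial.eval x g := by
  classical
  rw [MvPolynomial.eval_eq, MvPolynomial.eval_eq, Finset.mul_sum]
  apply Finset.sum_congr rfl
  intro d hd
  have h1 : ∑ i ∈ d.support, d i = m := by
    have := hg (MvPolynomial.mem_support_iff.mp hd)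
    rw [← this, Finsupp.weight_apply, Finsupp.sum]
    simp
  simp only [mul_pow, Finset.prod_mul_distrib]
  rw [Finset.prod_pow_eq_pow_sum, h1]
  ring

theorem t : S_HC.{u} := by
  classical
  intro K _ _ σ f x hf h
  -- the polynomial in the scaling variable
  let P : Polynomial K := ∑ i ∈ Finset.range (f.totalDegree + 1),
    Polynomial.C (MvPolynomial.eval x (MvPolynomial.homogeneousComponent i f)) * Polynomial.X ^ i
  have hP : ∀ l : K, P.eval l = MvPolynomial.eval (fun i => l * x i) f := by
    intro l
    have h1 : MvPolynomial.eval (fun i => l * x i) f = ∑ i ∈ Finset.range (f.totalDegree + 1),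
        MvPolynomial.eval (fun i => l * x i) (MvPolynomial.homogeneousComponent i f) := by
      conv_lhs => rw [← MvPolynomial.sum_homogeneousComponent f]
      rw [map_sum]
    rw [h1]
    simp only [P, Polynomial.eval_finsetSum, Polynomial.eval_mul, Polynomial.eval_C,
      Polynomial.eval_pow, Polynomial.eval_X]
    apply Finset.sum_congr rfl
    intro i _
    have hh := MvPolynomial.homogeneousComponent_isHomogeneous i f
    rw [eval_hom hh]
    ring
  have hP0 : P = 0 := by
    apply Polynomial.eq_zero_of_infinite_isRoot
    apply Set.Infinite.mono (s := {l : K | l ≠ 0})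
    · intro l hl
      simp only [Set.mem_ofPred_eq, Polynomial.IsRoot.def]
      rw [hP, hf l hl]
    · have : ({l : K | l ≠ 0} : Set K) = {0}ᶜ := by ext; simp
      rw [this]
      exact (Set.finite_singleton 0).infinite_compl
  have hco : P.coeff h = 0 := by rw [hP0]; simp
  by_cases hd : h < f.totalDegree + 1
  · simp only [P, Polynomial.finsetSum_coeff, Polynomial.coeff_C_mul_X_pow] at hco
    rw [Finset.sum_ite_eq (Finset.range (f.totalDegree + 1)) h] at hco
    simpa [hd] using hco
  · rw [MvPolynomial.homogeneousComponent_eq_zero _ _ (by omega)]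
    simp

end Pool.Agent.Helper64.RN.HC
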