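import Pool.Agent.Helper64.RN.All
import Pool.Agent.Helper64.RN.DI
import Pool.Agent.Helper64.RN.HC
import Pool.Agent.Helper78.RN.UP
import Pool.Agent.Helper45.RN.ID
import Pool.Agent.Helper9.RN.ME
import Pool.Agent.Helper13.RN.DFA
import Pool.Agent.Helper15.RN.DFB
import Pool.Agent.Helper33.RN.WR
import Pool.Agent.Helper24.RN.TA
import Pool.Agent.Helper44.RN.LC
import Pool.Agent.Helper23.RN.HM

/-! Assembly of part 2 of the project RN. -/

universe u

namespace Pool.Agent.Helper64.RN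

open Pool.Agent.Helper64.IG

theorem final2 (k K : Type u) [Field k] [Field K] [Algebra k K] [CharZero K] :
    (∀ C : Set (Pt K), IsZClosed k C → NStable Set.univ C →
      RNC k K ⊆ C ∨ ∃ M : ℕ, ∀ x ∈ C, ∃ a : Fin M → Ix M M, Function.Injective a ∧
        x.x M M a = 0) ∧
    IsZClosed k (RNC k K) ∧ NStable Set.univ (RNC k K) ∧
    ∃ x ∈ RNC k K, ∀ (M : ℕ) (a : Fin M → Ix M M), Function.Injective a → x.x M M a ≠ 0 := by
  have hHM : S_HM.{u} := Pool.Agent.Helper23.RN.HM.t Pool.Agent.Helper78.RN.UP.t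
    Pool.Agent.Helper45.RN.ID.t Pool.Agent.Helper9.RN.ME.t
    (Pool.Agent.Helper15.RN.DFB.t Pool.Agent.Helper13.RN.DFA.t) Pool.Agent.Helper33.RN.WR.t
    Pool.Agent.Helper24.RN.TA.t Pool.Agent.Helper44.RN.LC.t
  have hDI : S_DI.{u} := DI.t Pool.Agent.Helper23.RN.CN.t
    (Pool.Agent.Helper50.RN.MV.t Pool.Agent.Helper41.RN.DN.t) Pool.Agent.Helper61.RN.SZ.t hHM HC.t
  have : Infinite K := CharZero.infinite K
  refine ⟨fun C h1 h2 => hDI k K C h1 h2, (final k K).1, (final k K).2.1, ?_⟩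
  obtain ⟨z, hz⟩ : ∃ z : ℕ ⊕ ℕ → K, Function.Injective z := by
    have e : ℕ ⊕ ℕ ≃ ℕ := Equiv.natSumNatEquivNat
    exact ⟨fun i => Infinite.natEmbedding K (e i),
      fun i j hij => e.injective ((Infinite.natEmbedding K).injective hij)⟩
  obtain ⟨x, hx⟩ := Pool.Agent.Helper41.RN.PT.t K z hz
  exact ⟨x, fun e he => he _ (hx _ _).1, fun M a ha => (hx M M).2 a ha⟩

end Pool.Agent.Helper64.RN
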