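import Pool.Agent.Helper64.RN.Goals

universe u

namespace Pool.Agent.Helper64.RN.CB

open Pool.Agent.Helper64.IG Pool.Agent.Helper64.RN

theorem t (h : S_CA.{u}) : S_CB.{u} := by
  intro K _ _ p N ω c v hR hc hCR hU hN
  match p, ω, v, hR, hCR, hU, hN with
  | 0, ω, v, hR, hCR, hU, hN =>
    obtain ⟨z, hz⟩ : ∃ z : Fin N → K, Function.Injective z :=
      ⟨fun i => Infinite.natEmbedding K i, fun i j hij => Fin.ext ((Infinite.natEmbedding K).injective hij)⟩
    refine ⟨⟨0, by omega⟩, ω Fin.elim0, fun _ => 1, z, hU _ (fun i => i.elim0), fun _ _ => one_ne_zero,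
      fun e e' _ _ he => hz he, fun a _ => ?_⟩
    rw [Matrix.det_fin_zero, mul_one]
    congr 1
    funext i
    exact i.elim0
  | 1, ω, v, hR, hCR, hU, hN =>
    obtain ⟨z, hz⟩ : ∃ z : Fin N → K, Function.Injective z :=
      ⟨fun i => Infinite.natEmbedding K i, fun i j hij => Fin.ext ((Infinite.natEmbedding K).injective hij)⟩
    refine ⟨⟨0, by omega⟩, 1, fun e => ω (fun _ => e), z, one_ne_zero, fun e _ => hU _ ?_,
      fun e e' _ _ he => hz he, fun a _ => ?_⟩
    · intro i j _
      exact Subsingleton.elim i j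
    · rw [Matrix.det_fin_one, one_mul]
      simp only [Fin.val_zero, pow_zero, mul_one]
      congr 1
      funext i
      rw [Subsingleton.elim i 0]
  | p + 2, ω, v, hR, hCR, hU, hN =>
    exact h K p N ω c v hR hc hCR hU (by omega)

end Pool.Agent.Helper64.RN.CB
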