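import Pool.Agent.Helper64.RN.Goals
import Pool.Agent.Helper64.IG.All

universe u

namespace Pool.Agent.Helper64.RN.CH

open Pool.Agent.Helper64.IG Pool.Agent.Helper64.RN

theorem t (hFI : S_FI.{u}) : S_CH.{u} := by
  intro k K _ _ _ _ C hcl hst hanti h0
  by_cases hall : ∀ j, C j = RNC k K
  · exact ⟨0, fun j _ => by rw [hall j, hall 0]⟩
  push Not at hall
  obtain ⟨j1, hj1⟩ := hall
  obtain ⟨w, hw⟩ := hFI k K (C j1) (hcl j1) (hst j1) ((hanti (Nat.zero_le j1)).trans h0) hj1
  obtain ⟨j0, hj0⟩ := (final k K w).2.2 (fun j => C (j1 + j)) (fun j => hcl _)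
    (fun j => by
      intro n p g _ x y hxy hx
      exact hst (j1 + j) n p g (fun i => Set.mem_univ _) x y hxy hx)
    (fun i j hij => hanti (Nat.add_le_add_left hij j1)) (by simpa using hw)
  refine ⟨j1 + j0, fun j hj => ?_⟩
  have := hj0 (j - j1) (by omega)
  rw [show j1 + (j - j1) = j by omega] at this
  exact this

end Pool.Agent.Helper64.RN.CH
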