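import Pool.Agent.Helper64.RN.Goals

universe u

namespace Pool.Agent.Helper64.RN.CRX

open Pool.Agent.Helper64.IG Pool.Agent.Helper64.RN

theorem t (h : S_CRR.{u}) : S_CRX.{u} := by
  intro k K _ _ _ x hx n p i j u u' a b c d hij
  have key := hx ⟨n, p,
    (MvPolynomial.X (up u i j a b) * MvPolynomial.X (up u i j c d) *
        MvPolynomial.X (up u' i j a c) * MvPolynomial.X (up u' i j b d) -
      MvPolynomial.X (up u i j a c) * MvPolynomial.X (up u i j b d) *
        MvPolynomial.X (up u' i j a b) * MvPolynomial.X (up u' i j c d) :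
      MvPolynomial (Fin p → Ix n p) k)⟩ (by
    intro ω hω
    have := h K n p ω hω i j u u' a b c d hij
    simp only [map_sub, map_mul, MvPolynomial.aeval_X]
    rw [this, sub_self])
  unfold Sat at key
  simp only [map_sub, map_mul, MvPolynomial.aeval_X] at key
  exact sub_eq_zero.mp key

end Pool.Agent.Helper64.RN.CRX
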