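import Pool.Agent.Helper64.IG.Defs

/-!
# The locus of rational normal curves in the affine infinite Grassmannian

Definitions used in the statement of `MP_d01c92_ag.RationalNormalCurves` (the others are in
`Pool/Agent/Helper64/IG/Defs.lean`).
-/

universe u

namespace Pool.Agent.Helper64.RN

open Pool.Agent.Helper64.IG

/-- The form comes from vectors on (the cone over) a rational normal curve: up to the constant `c`
it is the form of the vectors `t_e (1, z_e, z_e ^ 2, …, z_e ^ (p - 1))`. -/
def IsRNC {K : Type u} [Field K] {n p : ℕ} (ω : Form K n p) : Prop :=
  ∃ (c : K) (t z : Ix n p → K), ∀ a : Fin p → Ix n p,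
    ω a = c * Matrix.det (fun i j : Fin p => t (a j) * z (a j) ^ (i : ℕ))

/-- The locus of rational normal curves: the points which satisfy, at each level, all equations
over `k` that hold for all forms which come from rational normal curves. -/
def RNC (k K : Type u) [Field k] [Field K] [Algebra k K] : Set (Pt K) :=
  {x | ∀ e : Eqn k, (∀ ω : Form K e.n e.p, IsRNC ω → MvPolynomial.aeval ω e.f = 0) → Sat x e}

end Pool.Agent.Helper64.RN
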