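import Pool.Agent.Helper64.RN.Goals
import Pool.Agent.Helper77.IG.REP
import Pool.Agent.Helper74.IG.RK1

universe u

namespace Pool.Agent.Helper64.RN.FI

open Pool.Agent.Helper64.IG Pool.Agent.Helper64.RN

variable {K : Type u} [Field K]

theorem bw_zero {m q w : ℕ} (hm : 1 ≤ m) : BWLe w (0 : Form K m q) := by
  classical
  unfold BWLe
  apply PkREP.dec_all
  · intro X
    have h : ∀ Y : Finset (Ix m q), rk (0 : Form K m q) Y = 0 := by
      intro Y
      unfold rk
      simp
    unfold conn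
    rw [h, h]
    omega
  · exact ⟨Sum.inl ⟨0, hm⟩, Finset.mem_univ _⟩

theorem elim_up {q p r N : ℕ} {E : Type} (eq : Fin q ≃ Fin p ⊕ Fin r) (s : Fin r → E)
    (e : Fin N → E) (u : Fin p → Fin N) (i j : Fin p) (a b : Fin N) :
    Sum.elim (e ∘ up u i j a b) s ∘ eq =
      up (Sum.elim (e ∘ u) s ∘ eq) (eq.symm (Sum.inl i)) (eq.symm (Sum.inl j)) (e a) (e b) := by
  funext l
  obtain ⟨l', rfl⟩ := eq.symm.surjective l
  rcases l' with l' | l'
  · simp only [Function.comp_apply, Equiv.apply_symm_apply, Sum.elim_inl, up]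
    by_cases hj : l' = j
    · subst hj
      simp
    · have h1 : eq.symm (Sum.inl l') ≠ eq.symm (Sum.inl j) := by
        simpa using hj
      rw [Function.update_of_ne hj, Function.update_of_ne h1]
      by_cases hi : l' = i
      · subst hi
        simp
      · have h2 : eq.symm (Sum.inl l') ≠ eq.symm (Sum.inl i) := by
          simpa using hi
        rw [Function.update_of_ne hi, Function.update_of_ne h2]
        simp
  · have h1 : eq.symm (Sum.inr l') ≠ eq.symm (Sum.inl j) := by simp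
    have h2 : eq.symm (Sum.inr l') ≠ eq.symm (Sum.inl i) := by simp
    simp only [Function.comp_apply, Equiv.apply_symm_apply, Sum.elim_inr, up]
    rw [Function.update_of_ne h1, Function.update_of_ne h2]
    simp

theorem cr_minor {q p r N : ℕ} {E : Type} {ω : (Fin q → E) → K} (h : CR ω)
    (eq : Fin q ≃ Fin p ⊕ Fin r) (s : Fin r → E) (e : Fin N → E) :
    CR (fun a : Fin p → Fin N => ω (Sum.elim (e ∘ a) s ∘ eq)) := by
  intro i j u u' a b c d hij
  simp only [elim_up]
  exact h _ _ _ _ _ _ _ _ (by simpa using hij)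

theorem t (hCRX : S_CRX.{u}) (hST : S_ST.{u}) (hCN : S_CN.{u}) (hCB : S_CB.{u}) (hRD : S_RD.{u})
    (hMV : S_MV.{u}) (hSZ : S_SZ.{u}) : S_FI.{u} := by
  classical
  intro k K _ _ _ _ C hcl hst hsub hne
  obtain ⟨S, hS⟩ := hcl
  have hx0 : ∃ x0 ∈ RNC k K, x0 ∉ C := by
    by_contra hcon
    push Not at hcon
    exact hne (Set.Subset.antisymm hsub hcon)
  obtain ⟨x0, hx0, hx0C⟩ := hx0
  rw [hS] at hx0C
  have hx1 : ∃ e0 ∈ S, ¬ Sat x0 e0 := by
    by_contra hcon
    push Not at hcon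
    exact hx0C hcon
  obtain ⟨e0, he0, he0x⟩ := hx1
  have hx2 : ∃ ω : Form K e0.n e0.p, IsRNC ω ∧ MvPolynomial.aeval ω e0.f ≠ 0 := by
    by_contra hcon
    push Not at hcon
    exact he0x (hx0 e0 hcon)
  obtain ⟨D, hD⟩ := hSZ k K e0.n e0.p e0.f hx2
  refine ⟨D + e0.n + e0.p + 2, fun x hx m q hm hq => ?_⟩
  by_contra hbw
  have hω : x.x m q ≠ 0 := by
    intro h0
    rw [h0] at hbw
    exact hbw (bw_zero hm)
  have hCRω : CR (x.x m q) := hCRX k K x (hsub hx) m q
  obtain ⟨P, r, N, eq, s, e, hinj, hwP, hwN, hU⟩ := hST K m q _ (x.x m q) hω (x.dec m q) hCRω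
    (by omega) (by omega) hbw
  obtain ⟨r', N', eq', s', e', hN', hinj', hU'⟩ := hRD K (Ix m q) q P r N e0.p (P - e0.p)
    (x.x m q) eq s e (by omega) (by omega) hinj hU
  obtain ⟨c, φ, hφ⟩ := x.dec m q
  have hc : c ≠ 0 := by
    rintro rfl
    exact hω (funext fun a => by simp [hφ])
  set v : Ix m q → Fin q → K := fun e i => φ i e with hv
  have hN2 : e0.p + 2 ≤ N' := by omega
  have hli : LinearIndependent K (fun i => v (s' i)) := by
    have ha := hU' (Fin.castLE (by omega)) (Fin.castLE_injective _)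
    simp only [hφ] at ha
    have hdet := right_ne_zero_of_mul ha
    have hli := (PkRK1.det_ne_zero_iff v _).mp hdet
    have := hli.comp (fun i : Fin r' => eq'.symm (Sum.inr i))
      (eq'.symm.injective.comp Sum.inr_injective)
    simpa [Function.comp_def] using this
  obtain ⟨c', v', hc', hdet, -⟩ := hCN K (Ix m q) q e0.p r' eq' c v s' hc hli
  obtain ⟨o, c'', t, z, hc'', ht, hz, hω'⟩ := hCB K e0.p N'
    (fun a : Fin e0.p → Fin N' => x.x m q (Sum.elim (e' ∘ a) s' ∘ eq')) c' (fun e => v' (e' e))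
    (by
      intro a
      simp only [hφ]
      exact hdet (e' ∘ a)) hc' (cr_minor hCRω eq' s' e') hU' hN2
  set Z : Finset K := (Finset.univ.erase o).image z with hZ
  have hZc : D ≤ Z.card := by
    rw [hZ, Finset.card_image_of_injOn]
    · rw [Finset.card_erase_of_mem (Finset.mem_univ _), Finset.card_univ, Fintype.card_fin]
      omega
    · intro a ha b hb hab
      exact hz a b (by simpa using ha) (by simpa using hb) hab
  obtain ⟨c1, t1, z1, hc1, ht1, hz1, hz1Z, hne1⟩ := hD Z hZc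
  have hε : ∀ y : Ix e0.n e0.p, ∃ e : Fin N', e ≠ o ∧ z e = z1 y := by
    intro y
    have := hz1Z y
    rw [hZ, Finset.mem_image] at this
    obtain ⟨e, he, he'⟩ := this
    exact ⟨e, (Finset.mem_erase.mp he).1, he'⟩
  choose ε hε1 hε2 using hε
  have hεinj : Function.Injective ε := by
    intro a b hab
    apply hz1
    rw [← hε2, ← hε2, hab]
  have hinj3 : Function.Injective (Sum.elim (e' ∘ ε) s') := by
    have : Sum.elim (e' ∘ ε) s' = Sum.elim e' s' ∘ Sum.map ε id := by
      funext y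
      cases y <;> simp
    rw [this]
    exact hinj'.comp (Sum.map_injective.mpr ⟨hεinj, Function.injective_id⟩)
  obtain ⟨y, hyC, hy⟩ := hMV K C hst x hx e0.n e0.p m q r' eq' s' (e' ∘ ε) hinj3
    (fun x => t1 x / t (ε x)) (c1 / c'') (fun x => div_ne_zero (ht1 x) (ht _ (hε1 x)))
    (div_ne_zero hc1 hc'')
  rw [hS] at hyC
  have hsat := hyC e0 he0
  apply hne1
  unfold Sat at hsat
  rw [← hsat]
  congr 2
  funext a
  rw [hy a]
  have h1 : x.x m q (Sum.elim (e' ∘ (ε ∘ a)) s' ∘ eq') =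
      c'' * Matrix.det (fun i j : Fin e0.p => t ((ε ∘ a) j) * z ((ε ∘ a) j) ^ (i : ℕ)) :=
    hω' (ε ∘ a) (fun j => hε1 _)
  have h2 : e' ∘ ε ∘ a = (e' ∘ ε) ∘ a := rfl
  rw [← h2, h1]
  have h3 : Matrix.det (fun i j : Fin e0.p => t1 (a j) * z1 (a j) ^ (i : ℕ)) =
      (∏ j, (t1 (a j) / t (ε (a j)))) *
        Matrix.det (fun i j : Fin e0.p => t ((ε ∘ a) j) * z ((ε ∘ a) j) ^ (i : ℕ)) := by
    rw [← Matrix.det_mul_row]
    congr 1
    ext i j
    simp only [Function.comp_apply, Matrix.of_apply, hε2]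
    have := ht _ (hε1 (a j))
    field_simp
  rw [h3]
  generalize (∏ j, (t1 (a j) / t (ε (a j)))) = A
  generalize Matrix.det (fun i j : Fin e0.p => t ((ε ∘ a) j) * z ((ε ∘ a) j) ^ (i : ℕ)) = B
  have : c1 = c1 / c'' * c'' := by rw [div_mul_cancel₀ c1 hc'']
  calc c1 * (A * B) = (c1 / c'' * c'') * (A * B) := by rw [← this]
    _ = c1 / c'' * A * (c'' * B) := by ring

end Pool.Agent.Helper64.RN.FI
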