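import Pool.Agent.Helper64.RN.Goals

/-!
# Goals of the project RN, part 2 (MP_d01c92_ag.UniformMinors)

THEOREM. `k ⊆ K` fields of characteristic `0`, `C ⊆ Pt K` Zariski closed over `k` and stable under
`N(∞)(K)`. Either `C` contains the whole locus `RNC k K` of rational normal curves, or for some `M`
no point of `C` is uniform at the level `(M, M)` (i.e. no minor `U_{M,2M}` occurs).

Every `S_XX` is a packet; its docstring has the complete proof. Goals listed as USES are arguments
`(h : S_YY)` (in the order of the list; with universe `u` where there is one).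
-/

open scoped BigOperators

universe u

namespace Pool.Agent.Helper64.RN

open Module Pool.Agent.Helper64.IG

/-- General position: any `p` different vectors are independent. -/
def GP {K : Type u} [Field K] {p : ℕ} {N : Type} (v : N → Fin p → K) : Prop :=
  ∀ a : Fin p → N, Function.Injective a → Matrix.det (fun i j => v (a j) i) ≠ 0

/-- UP (ultraproduct).
PROOF. Let `v_M` be the family given for `M`. `K0 = (Filter.hyperfilter ℕ : Filter ℕ).Germ K`, a
field (Mathlib instance for germs along an ultrafilter), an algebra over `K` by constants, and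
`v' n i` the germ of `M ↦ if h : n < M then v_M ⟨n, h⟩ i else 0`. For a polynomial `P` over `K` in the
coordinates of finitely many of the vectors, the value at the `v'` is the germ of the values (ring
homomorphisms; induction on `P`, or `Germ.map`), so `det ≠ 0` for injective `a : Fin p → ℕ` (true for
all `M` larger than the values of `a`, a cofinite set), and the values of `G` are `0` for
injective `ι` for the same reason. Finally let `𝕂 = AlgebraicClosure K0` and compose. -/
def S_UP : Prop :=
  ∀ (K : Type u) [Field K] (p : ℕ) (E : Type) [Fintype E] (G : MvPolynomial (E × Fin p) K),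
    (∀ M : ℕ, ∃ v : Fin M → Fin p → K, GP v ∧ ∀ ι : E → Fin M, Function.Injective ι →
      MvPolynomial.eval (fun q : E × Fin p => v (ι q.1) q.2) G = 0) →
    ∃ (𝕂 : Type u) (_ : Field 𝕂) (_ : Algebra K 𝕂) (_ : IsAlgClosed 𝕂) (v : ℕ → Fin p → 𝕂),
      GP v ∧ ∀ ι : E → ℕ, Function.Injective ι →
        MvPolynomial.aeval (fun q : E × Fin p => v (ι q.1) q.2) G = 0

/-- ID (a generic infinite subset).
PROOF. For an infinite `Y ⊆ ℕ` let `I(Y)` be the ideal of the polynomials that vanish at all `v i`,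
`i ∈ Y`. The ring is noetherian, so there is an infinite `Y` with `I(Y)` maximal
(`set_has_maximal_iff_noetherian` or `WellFoundedGT`). If `Y' ⊆ Y` is infinite then
`I(Y) ≤ I(Y')`, so `I(Y') = I(Y)`. Prime: `1 ∉ I(Y)`; if `g h ∈ I(Y)` then
`Y = {i | g (v i) = 0} ∪ {i | h (v i) = 0}`, one of the two is infinite, so `g` or `h` is in `I(Y)`. -/
def S_ID : Prop :=
  ∀ (K : Type u) [Field K] (p : ℕ) (v : ℕ → Fin p → K),
    ∃ (Y : Set ℕ) (I : Ideal (MvPolynomial (Fin p) K)), Y.Infinite ∧ I.IsPrime ∧
      (∀ g ∈ I, ∀ i ∈ Y, MvPolynomial.eval (v i) g = 0) ∧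
      ∀ Y' ⊆ Y, Y'.Infinite → ∀ g : MvPolynomial (Fin p) K,
        (∀ i ∈ Y', MvPolynomial.eval (v i) g = 0) → g ∈ I

/-- ME (several generic points).
PROOF. CLAIM: for every finset `S ⊆ E` and `ι : E → ℕ` injective with values in `Y`, `G` vanishes at
`q ↦ if q.1 ∈ S then θ q.1 q.2 else v (ι q.1) q.2` (mapped to `Λ`). Induction on `S`, `S = ∅` is the
hypothesis. For `insert e S`: let `g ∈ MvPolynomial (Fin p) Λ` be `G` with the variables `(e, i)`
kept as `X i` and all others evaluated as above. For `i` in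
`Y' = Y \ {ι e' | e' ≠ e}` (infinite) the value of `g` at (the image of) `v i` is `0`: induction
hypothesis for `ι` changed at `e` to `i`. Let `b` be a basis of `Λ` over the field `K`
(`Basis.ofVectorSpace`), `g = Σ_j b_j g_j` with `g_j` over `K` (coefficients `b.repr`), a finite sum;
`0 = Σ_j b_j g_j(v i)` gives `g_j(v i) = 0` for all `i ∈ Y'`, so `g_j ∈ I` and
`aeval (θ e) g_j = 0`; so `g` vanishes at `θ e`. `S = univ` is the statement. (Some `ι` exists, as `Y`
is infinite.) -/
def S_ME : Prop :=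
  ∀ (K : Type u) [Field K] (p : ℕ) (E : Type) [Fintype E] [DecidableEq E] (v : ℕ → Fin p → K)
    (Y : Set ℕ) (I : Ideal (MvPolynomial (Fin p) K)), Y.Infinite →
    (∀ Y' ⊆ Y, Y'.Infinite → ∀ g : MvPolynomial (Fin p) K,
      (∀ i ∈ Y', MvPolynomial.eval (v i) g = 0) → g ∈ I) →
    ∀ G : MvPolynomial (E × Fin p) K,
    (∀ ι : E → ℕ, Function.Injective ι → (∀ e, ι e ∈ Y) →
      MvPolynomial.eval (fun q : E × Fin p => v (ι q.1) q.2) G = 0) →
    ∀ (Λ : Type u) [CommRing Λ] [Algebra K Λ] (θ : E → Fin p → Λ),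
      (∀ e, ∀ g ∈ I, MvPolynomial.aeval (θ e) g = 0) →
      MvPolynomial.aeval (fun q : E × Fin p => θ q.1 q.2) G = 0

/-- DFA (a differential field with constants `K` and large transcendence degree).
PROOF 1 (differential rational functions). `J = Fin d`, `F = FractionRing (MvPolynomial (J × ℕ) K)`, `δ` the
derivation over `K` with `δ X(j, m) = X(j, m + 1)` (on polynomials `MvPolynomial.mkDerivation`; extended
to fractions by the quotient rule), `x j = X(j, 0)`. Constants: let `M` be the largest order such that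
some `X(j, M)` occurs in `g`, `F_M` the field of fractions in the variables of order `≤ M`. Then
`δ g = ∑_j (∂g/∂X(j,M)) X(j, M+1) + (an element of F_M)`, and the `X(j, M+1)` are algebraically
independent over `F_M`, so `∂g/∂X(j,M) = 0` for all `j`; in characteristic `0`, with `g = a / b` in
lowest terms, `b ∂a = a ∂b`, `a ∣ ∂a`, so `∂a = 0 = ∂b` (degree in `X(j,M)`): the variables of order
`M` do not occur in `g`. Contradiction; so no variable occurs.
PROOF 2. `F = LaurentSeries K`, `δ = d/ds` (coefficientwise; the constants are `K` because of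
characteristic `0`), `x j` = `d` algebraically independent power series, e.g. lacunary ones
`x j = ∑_n s^(N(d n + j))` with `N` growing very fast: if `P(x_0, …, x_{d-1}) = 0`, `P ≠ 0` of total
degree `D`, look at the term of the last variable that occurs: with the truncations `y` of all `x i`
below the exponent `N(d n + j)`, `P(x) ≡ P(y) + s^(N(d n + j)) (∂P/∂X_j)(y)` modulo a larger power, where
`P(y)` is a polynomial in `s` of degree `≤ D N(d n + j - 1) < N(d n + j)`; so `P(y) = 0` for all large
`n` and all `j` and then `(∂P/∂X_j)(y) = 0` too, hence `(∂P/∂X_j)(x) = 0`; take `P` of minimal degree.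
Any other proof is welcome. -/
def S_DFA : Prop :=
  ∀ (K : Type u) [Field K] [CharZero K] (d : ℕ),
    ∃ (F : Type u) (_ : Field F) (_ : Algebra K F) (δ : Derivation K F F) (x : Fin d → F),
      AlgebraicIndependent K x ∧ ∀ g : F, δ g = 0 → ∃ c : K, algebraMap K F c = g

/-- DFB (a differential field with few constants containing a given one). USES: DFA.
PROOF. Let `A = MvPolynomial (Fin p) K ⧸ I`, `L` its field of fractions, `y i` the image of `X i`,
`L = K(y)`. Choose `J ⊆ Fin p` with `(y j)_{j∈J}` a transcendence basis of `L` over `K`, `J ≃ Fin d`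
(`exists_isTranscendenceBasis_subset` or similar; `L` is algebraic over `K(y j : j ∈ J)`). Take
`F, δ, x` of DFA for this `d`, `F̄ = AlgebraicClosure F`. The `K`-embedding
`K(y_J) → F`, `y j ↦ x j`, extends to `ψ : L → F̄` (`IsAlgClosed.lift` for algebraic extensions).
`Ω = F(ψ y_1, …, ψ y_p)` (`IntermediateField.adjoin F`), finite over `F`; `δ` extends to `Ω`
(`differentialFiniteDimensional`, `Mathlib/FieldTheory/Differential/Basic.lean`), is `K`-linear
(`δ` vanishes on `K`). `η i = ψ (y i)`: `aeval η g = 0 ↔ g ∈ I` because `ψ` is injective. Constants: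
if `δ g = 0`, differentiate the minimal polynomial `T^m + a_{m-1} T^{m-1} + …` of `g` over `F`:
`∑ δ(a_i) g^i = 0`, so `δ a_i = 0`, `a_i ∈ K`; `g` is algebraic over the algebraically closed `K`,
so `g ∈ K`. -/
def S_DFB : Prop :=
  ∀ (K : Type u) [Field K] [CharZero K] [IsAlgClosed K] (p : ℕ)
    (I : Ideal (MvPolynomial (Fin p) K)), I.IsPrime →
    ∃ (Ω : Type u) (_ : Field Ω) (_ : Algebra K Ω) (δ : Derivation K Ω Ω) (η : Fin p → Ω),
      (∀ g, MvPolynomial.aeval η g = 0 ↔ g ∈ I) ∧ ∀ g : Ω, δ g = 0 → ∃ c : K, algebraMap K Ω c = g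

/-- WR (Wronskian criterion).
PROOF. Induction on `p`; `p = 0`: the determinant is `1`. Let `η : Fin (p + 1) → Ω` be independent,
`W_p = det (δ^j η_i)_{i,j<p} ≠ 0` by induction (`η ∘ castSucc` is independent). Suppose
`det (δ^j η_i)_{i,j≤p} = 0`. Then there is `c ≠ 0` with `∑_i c_i δ^j η_i = 0` for all `j ≤ p`
(`Matrix.exists_vecMul_eq_zero_iff`); `c_p ≠ 0` because `W_p ≠ 0`; divide: `c_p = 1`. Apply `δ` to the
equations `j < p` and subtract the equation `j + 1`: `∑_{i<p} δ(c_i) δ^j η_i = 0` for `j < p`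
(`δ c_p = 0`), so `δ c_i = 0` for all `i`, `c_i ∈ K`; the equation `j = 0` contradicts the
independence. -/
def S_WR : Prop :=
  ∀ (K Ω : Type u) [Field K] [Field Ω] [Algebra K Ω] (δ : Derivation K Ω Ω),
    (∀ g : Ω, δ g = 0 → ∃ c : K, algebraMap K Ω c = g) → ∀ (p : ℕ) (η : Fin p → Ω),
    LinearIndependent K η → Matrix.det (fun i j : Fin p => (fun g => δ g)^[j] (η i)) ≠ 0

/-- TA (Taylor homomorphisms).
PROOF. `τ g = ∑_j (a^j / j!) δ^j(g) X^j`. Additive and unital are clear (`δ 1 = 0`); multiplicative: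
Leibniz `δ^m(g h) = ∑ choose(m, i) δ^i g δ^(m-i) h` (`Derivation.leibniz` iterated, by induction) and
`PowerSeries.coeff_mul`. -/
def S_TA : Prop :=
  ∀ (K Ω : Type u) [Field K] [Field Ω] [CharZero Ω] [Algebra K Ω] (δ : Derivation K Ω Ω) (a : ℕ),
    ∃ τ : Ω →ₐ[K] PowerSeries Ω, ∀ (g : Ω) (j : ℕ),
      PowerSeries.coeff j (τ g) = (a : Ω) ^ j / (j.factorial : Ω) * (fun g => δ g)^[j] g

/-- LC (leading coefficient).
PROOF. The coefficient of `X^m` of the determinant is
`∑_σ sign σ ∑_{j : ∑ j_i = m} ∏_i w i (j_i) a(σ i)^(j_i) = ∑_{j : Fin p → ℕ, ∑ j_i = m} (∏_i w i (j_i)) *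
det (a l ^ (j_i))_{i,l}` (`PowerSeries.coeff_prod`). A term with two equal `j_i` vanishes (equal rows),
and `p` different natural numbers have sum `≥ p (p - 1) / 2`, with equality only for a permutation
of `0, …, p - 1`. So the coefficients of `X^m`, `m < p (p-1) / 2`, vanish
(`PowerSeries.X_pow_dvd_iff`), and the one of `X^(p (p-1) / 2)` is
`∑_π (∏_i w i (π i)) det (a l ^ (π i)) = ∑_π sign π (∏_i w i (π i)) det (a l ^ i) = det w * det (a l ^ i)`.
(Alternatively: multiply the matrix of truncations, Cauchy-Binet.) -/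
def S_LC : Prop :=
  ∀ (A : Type u) [CommRing A] (p : ℕ) (w : Fin p → ℕ → A) (a : Fin p → A),
    ∃ D : PowerSeries A,
      Matrix.det (fun i l : Fin p => PowerSeries.mk (fun j => w i j * a l ^ j)) =
        PowerSeries.X ^ (p * (p - 1) / 2) * D ∧
      PowerSeries.constantCoeff D = Matrix.det (fun i j : Fin p => w i (j : ℕ)) *
        Matrix.det (fun i l : Fin p => a l ^ (i : ℕ))

/-- HM (the homogeneous statement). USES: UP, ID, ME, DFB, WR, TA, LC.
PROOF. `E = Ix n p`; let `G ∈ MvPolynomial (E × Fin p) K` be `g` evaluated at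
`a ↦ det (X (a j, i))_{i,j}`. UP gives `𝕂` (characteristic `0` as a `K`-algebra) and `v`; let
`G'` be the image of `G` over `𝕂`. ID gives `Y, I`; DFB gives `Ω, δ, η`. `η` is linearly
independent over `𝕂`: if `∑ c_i η_i = 0`, the linear form `∑ c_i X_i` is in `I`, so vanishes at
`v i`, `i ∈ Y`, in particular at `p` different ones, which are independent (GP); so `c = 0`. By WR
`w = det (δ^j η_i) ≠ 0`. TA gives `τ_e := τ` for `a = z e` (`e ∈ E`); `θ e i = τ_e (η i)` in
`Λ = Ω[[X]]` satisfies `aeval (θ e) h = τ_e (aeval η h) = 0` for `h ∈ I`. ME: `G'` vanishes at `θ`,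
i.e. `g` vanishes at `a ↦ det (τ_{a j} (η i)) = X^c * D_a`, `c = p (p-1) / 2` (LC with
`w i j = δ^j η_i / j!`, `a l = z (a l)`), and `D_a` has constant coefficient
`w' * det ((z (a l))^i)`, `w' = w / ∏_{j<p} j! ≠ 0`. `g` is homogeneous of degree `h`:
`0 = X^(c h) g(D)`, so `g(D) = 0`; take constant coefficients: `0 = g(w' V) = w'^h g(V)` with
`V a = det ((z (a l))^i)`; so `g(V) = 0` in `Ω`, hence in `K` (`K → 𝕂 → Ω` is injective). -/
def S_HM : Prop :=
  ∀ (K : Type u) [Field K] [CharZero K] (n p h : ℕ) (g : MvPolynomial (Fin p → Ix n p) K),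
    g.IsHomogeneous h →
    (∀ M : ℕ, ∃ v : Fin M → Fin p → K, GP v ∧ ∀ ι : Ix n p → Fin M, Function.Injective ι →
      MvPolynomial.eval (fun a : Fin p → Ix n p => Matrix.det (fun i j => v (ι (a j)) i)) g = 0) →
    ∀ z : Ix n p → ℕ, MvPolynomial.eval
      (fun a : Fin p → Ix n p => Matrix.det (fun i j : Fin p => (z (a j) : K) ^ (i : ℕ))) g = 0

/-- HC (homogeneous components).
PROOF. `eval (λ • x) f = ∑_h λ^h eval x (f_h)` (`MvPolynomial.sum_homogeneousComponent`,
`IsHomogeneous.eval₂`/`eval_smul`), a polynomial in `λ` that vanishes for infinitely many `λ`. -/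
def S_HC : Prop :=
  ∀ (K : Type u) [Field K] [Infinite K] (σ : Type) (f : MvPolynomial σ K) (x : σ → K),
    (∀ l : K, l ≠ 0 → MvPolynomial.eval (fun i => l * x i) f = 0) →
    ∀ h : ℕ, MvPolynomial.eval x (MvPolynomial.homogeneousComponent h f) = 0

/-- DI (dichotomy). USES: CN, MV, SZ, HM, HC.
PROOF. Suppose that for every `M` there is `x ∈ C` uniform at `(M, M)`, `C = {x | ∀ e ∈ S, Sat x e}`,
and `x0 ∈ RNC`, `x0 ∉ C`: some `e0 ∈ S` does not hold at `x0`, so `f = e0.f` does not vanish at some
`IsRNC` form (definition of `RNC`), `(n, p) = (e0.n, e0.p)`. SZ with `Z = {0, …, D - 1} ⊂ K`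
(characteristic `0`) gives `c1, t1, z1`; `z1 e = z e` with `z e : ℕ`. Let
`f1 = bind₁ (fun a => C (c1 * ∏ t1 (a j)) * X a) (map f)` over `K`; it does not vanish at
`V a = det ((z (a j))^i)` (`Matrix.det_mul_row`), so some homogeneous component
`g = homogeneousComponent h f1` does not vanish at `V`. For HM let `M` be given, `M' = M + p`, `x ∈ C`
uniform at the level `(M', M')`; `s : Fin (M' - p) → Ix M' M'`, `s i = inr (p + i)`,
`e : Fin M → Ix M' M'`, `e i = inl i`, `eq` any. CN (the `v ∘ s` are independent, because they are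
part of an injective tuple, as in `FI.lean`) gives `c', v'` with
`x.x M' M' (Sum.elim a s ∘ eq) = c' det (v' (a j) i)`; `v = v' ∘ e` is in general position. For
injective `ι : Ix n p → Fin M` and `l ≠ 0`, MV with `e ∘ ι`, `T = t1`, `c0 = c1 * l / c'` gives `y ∈ C`,
`y.x n p a = c1 l ∏ t1 (a j) det (v (ι (a j)) i)`; `Sat y e0` says that `f1` vanishes at
`a ↦ l * det (v (ι (a j)) i)`. HC: `g` vanishes at `a ↦ det (v (ι (a j)) i)`. HM: `g` vanishes at `V`.
Contradiction. -/
def S_DI : Prop :=
  ∀ (k K : Type u) [Field k] [Field K] [Algebra k K] [CharZero K] (C : Set (Pt K)),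
    IsZClosed k C → NStable Set.univ C →
    RNC k K ⊆ C ∨ ∃ M : ℕ, ∀ x ∈ C, ∃ a : Fin M → Ix M M, Function.Injective a ∧ x.x M M a = 0

end Pool.Agent.Helper64.RN
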