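import Pool.Agent.Helper64.RN.Goals
import Pool.Agent.Helper67.IG.TLK

namespace Pool.Agent.Helper64.RN.LN

open Pool.Agent.Helper64.IG Pool.Agent.Helper64.RN

theorem t : S_LN := by
  classical
  intro E _ _ r h0 h1 h2 p a b c d hnd hp hY
  have hcard : ∀ X : Finset E, r X ≤ X.card := by
    intro X
    induction X using Finset.induction_on with
    | empty => simp [h0]
    | insert e X he ih =>
      rw [Finset.card_insert_of_notMem he]
      exact (h1 X e).2.trans (by omega)
  have hmono : ∀ X Y : Finset E, X ⊆ Y → r X ≤ r Y := by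
    intro X Y hXY
    have key : ∀ Z : Finset E, r X ≤ r (X ∪ Z) := by
      intro Z
      induction Z using Finset.induction_on with
      | empty => simp
      | insert e Z he ih =>
        rw [Finset.union_insert]
        exact ih.trans (h1 _ e).1
    have := key Y
    rwa [Finset.union_eq_right.mpr hXY] at this
  have hle : ∀ X : Finset E, r X ≤ p := fun X => hp ▸ hmono X _ (Finset.subset_univ _)
  simp only [List.nodup_cons, List.mem_cons, List.not_mem_nil, or_false, not_or,
    List.nodup_nil, and_true, not_false_eq_true] at hnd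
  obtain ⟨⟨hab, hac, had⟩, ⟨hbc, hbd⟩, hcd⟩ := hnd
  set F : Finset E := {a, b} with hF
  set B : Finset E := {c, d} with hB
  have hFB : Disjoint F B := by
    rw [Finset.disjoint_left]
    intro x hx hx'
    simp only [hF, hB, Finset.mem_insert, Finset.mem_singleton] at hx hx'
    rcases hx with rfl | rfl <;> rcases hx' with h | h <;> simp_all
  have hF2 : r F ≤ 2 := (hcard F).trans (Finset.card_le_two)
  have hYF := hY F (by simp [hF]) (by simp [hF]) (by simp [hF, Ne.symm hac, Ne.symm hbc])
    (by simp [hF, Ne.symm had, Ne.symm hbd])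
  have hFc := hle Fᶜ
  have hEq : r F + r Fᶜ = 2 + p := by omega
  obtain ⟨C, hCF, hCB, hC1, hC2, hC3⟩ := PkTLK.tlk E r h0 h1 h2 p 2 F B hFB hp hEq (by
    intro Y hFY hYB
    have := hY Y (hFY (by simp [hF])) (hFY (by simp [hF]))
      (fun h => Finset.disjoint_left.mp hYB h (by simp [hB]))
      (fun h => Finset.disjoint_left.mp hYB h (by simp [hB]))
    omega)
  have e1 : F ∪ C = insert a (insert b C) := by
    ext x; simp [hF]
  have e2 : C ∪ B = insert c (insert d C) := by
    ext x; simp [hB]
  have b1 : r (F ∪ C) ≤ C.card + 2 := by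
    refine (hcard _).trans ((Finset.card_union_le _ _).trans ?_)
    have h3 : F.card ≤ 2 := Finset.card_le_two
    omega
  have b2 : r (C ∪ B) ≤ C.card + 2 := by
    refine (hcard _).trans ((Finset.card_union_le _ _).trans ?_)
    have h3 : B.card ≤ 2 := Finset.card_le_two
    omega
  have b3 := hle (F ∪ C)
  have b4 := hle (C ∪ B)
  refine ⟨C, ?_, ?_, ?_, ?_, by omega, ?_, ?_⟩
  · exact fun h => Finset.disjoint_left.mp hCF h (by simp [hF])
  · exact fun h => Finset.disjoint_left.mp hCF h (by simp [hF])
  · exact fun h => Finset.disjoint_left.mp hCB h (by simp [hB])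
  · exact fun h => Finset.disjoint_left.mp hCB h (by simp [hB])
  · rw [← e1]; omega
  · rw [← e2]; omega

end Pool.Agent.Helper64.RN.LN
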