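import Pool.Agent.Helper64.RN.Goals

universe u

namespace Pool.Agent.Helper64.RN.NB

open Pool.Agent.Helper64.IG Pool.Agent.Helper64.RN

theorem t (hPT : S_PT.{u}) (hUB : S_UB.{u}) : S_NB.{u} := by
  intro k K _ _ _ _ w hsub
  obtain ⟨z, hz⟩ : ∃ z : ℕ ⊕ ℕ → K, Function.Injective z := by
    have e : ℕ ⊕ ℕ ≃ ℕ := Equiv.natSumNatEquivNat
    exact ⟨fun i => Infinite.natEmbedding K (e i),
      fun i j hij => e.injective ((Infinite.natEmbedding K).injective hij)⟩
  obtain ⟨x, hx⟩ := hPT K z hz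
  have hmem : x ∈ RNC k K := fun e he => he _ (hx _ _).1
  have := hsub hmem (3 * w + 3) (3 * w + 3) (by omega) (by omega)
  exact hUB K (3 * w + 3) w _ (hx _ _).2 le_rfl this

end Pool.Agent.Helper64.RN.NB
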