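import Pool.Agent.Helper64.RN.LN
import Pool.Agent.Helper64.RN.CRX
import Pool.Agent.Helper64.RN.CH
import Pool.Agent.Helper64.RN.CB
import Pool.Agent.Helper64.RN.NB
import Pool.Agent.Helper64.RN.FI
import Pool.Agent.Helper66.RN.CRR
import Pool.Agent.Helper44.RN.RS
import Pool.Agent.Helper89.RN.KK
import Pool.Agent.Helper22.RN.NS
import Pool.Agent.Helper23.RN.CN
import Pool.Agent.Helper25.RN.TOR
import Pool.Agent.Helper71.RN.BWI
import Pool.Agent.Helper87.RN.SP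
import Pool.Agent.Helper36.RN.UN
import Pool.Agent.Helper67.RN.ST
import Pool.Agent.Helper83.RN.RD
import Pool.Agent.Helper41.RN.DN
import Pool.Agent.Helper50.RN.MV
import Pool.Agent.Helper61.RN.SZ
import Pool.Agent.Helper41.RN.PT
import Pool.Agent.Helper14.RN.UB

/-! Assembly of the project RN. -/

universe u

namespace Pool.Agent.Helper64.RN.Main

open Pool.Agent.Helper64.IG Pool.Agent.Helper64.RN

theorem main (hCA : S_CA.{u}) : S_MAIN.{u} := by
  have hCRX : S_CRX.{u} := CRX.t Pool.Agent.Helper66.RN.CRR.t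
  have hUN : S_UN.{u} := Pool.Agent.Helper36.RN.UN.t LN.t Pool.Agent.Helper87.RN.SP.t
  have hST : S_ST.{u} := Pool.Agent.Helper67.RN.ST.t Pool.Agent.Helper25.RN.TOR.t
    Pool.Agent.Helper71.RN.BWI.t Pool.Agent.Helper23.RN.CN.t hUN
  have hFI : S_FI.{u} := FI.t hCRX hST Pool.Agent.Helper23.RN.CN.t (CB.t hCA)
    Pool.Agent.Helper83.RN.RD.t (Pool.Agent.Helper50.RN.MV.t Pool.Agent.Helper41.RN.DN.t)
    Pool.Agent.Helper61.RN.SZ.t
  intro k K _ _ _ _
  refine ⟨⟨{e | ∀ ω : Form K e.n e.p, IsRNC ω → MvPolynomial.aeval ω e.f = 0}, rfl⟩,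
    Pool.Agent.Helper22.RN.NS.t Pool.Agent.Helper89.RN.KK.t Pool.Agent.Helper44.RN.RS.t k K,
    NB.t Pool.Agent.Helper41.RN.PT.t Pool.Agent.Helper14.RN.UB.t k K,
    fun C h1 h2 h3 h4 => hFI k K C h1 h2 h3 h4,
    fun C h1 h2 h3 h4 => CH.t hFI k K C h1 h2 h3 h4⟩

end Pool.Agent.Helper64.RN.Main
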